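import Pool.Agent.P.MP_7884fa_an.Defs

/-! Basic facts on `L2`, push-forward and pull-back along injections, and the Roe algebra. -/

namespace Pool.Agent.P.MP_7884fa_an

open scoped InnerProductSpace NNReal
open InnerProductSpace ContinuousLinearMap

section l2
variable {X A B : Type*}

theorem inner_delta (x : X) (ξ : L2 X) : ⟪delta x, ξ⟫_ℂ = ξ x := by
  classical
  unfold delta
  rw [lp.inner_single_left]; simp

theorem delta_apply_self (x : X) : (delta x : L2 X) x = 1 := by
  unfold delta
  exact @lp.single_apply_self X (fun _ => ℂ) _ (Classical.decEq X) 2 x 1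

theorem delta_apply_ne {x y : X} (h : y ≠ x) : (delta x : L2 X) y = 0 := by
  unfold delta
  exact @lp.single_apply_ne X (fun _ => ℂ) _ (Classical.decEq X) 2 x 1 y h

theorem norm_delta (x : X) : ‖(delta x : L2 X)‖ = 1 := by
  unfold delta
  rw [@lp.norm_single X (fun _ => ℂ) 2 _ (Classical.decEq X) (by norm_num)]; simp

theorem orthonormal_delta : Orthonormal ℂ (delta : X → L2 X) :=
  ⟨norm_delta, fun x y h => by
    show ⟪delta x, delta y⟫_ℂ = 0
    rw [inner_delta, delta_apply_ne h]⟩

theorem single_eq_smul (x : X) (c : ℂ) :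
    @lp.single X (fun _ => ℂ) _ (Classical.decEq X) 2 x c = c • delta x := by
  unfold delta
  rw [← @lp.single_smul]; simp

theorem hasSum_delta (ξ : L2 X) : HasSum (fun x => ξ x • delta x) ξ := by
  have := @lp.hasSum_single X (fun _ => ℂ) 2 _ (Classical.decEq X) _ (by norm_num) ξ
  simpa only [single_eq_smul] using this

theorem clm_ext {F : Type*} [NormedAddCommGroup F] [NormedSpace ℂ F] {S T : L2 X →L[ℂ] F}
    (h : ∀ x, S (delta x) = T (delta x)) : S = T := by
  ext ξ
  have h1 := (hasSum_delta ξ).mapL S
  have h2 := (hasSum_delta ξ).mapL T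
  simp only [map_smul, h] at h1 h2
  exact h1.unique h2

theorem entry_eq (T : L2 X →L[ℂ] L2 X) (x y : X) : entry T x y = T (delta y) x := inner_delta _ _

/-- The isometry induced by an injection. -/
noncomputable def pushI {g : A → B} (hg : Function.Injective g) : L2 A →ₗᵢ[ℂ] L2 B :=
  ((orthonormal_delta (X := B)).comp g hg).orthogonalFamily.linearIsometry

/-- Push-forward along an injection. -/
noncomputable def push {g : A → B} (hg : Function.Injective g) : L2 A →L[ℂ] L2 B :=
  (pushI hg).toContinuousLinearMap

/-- Pull-back along an injection. -/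
noncomputable def pull {g : A → B} (hg : Function.Injective g) : L2 B →L[ℂ] L2 A :=
  adjoint (push hg)

theorem push_delta {g : A → B} (hg : Function.Injective g) (a : A) :
    push hg (delta a) = delta (g a) := by
  have := @OrthogonalFamily.linearIsometry_apply_single A ℂ _ (L2 B) _ _ (fun _ => ℂ) _ _ _ _
    ((orthonormal_delta (X := B)).comp g hg).orthogonalFamily (Classical.decEq A) a 1
  rw [LinearIsometry.toSpanSingleton_apply, one_smul] at this
  exact this

theorem norm_push_apply {g : A → B} (hg : Function.Injective g) (ξ : L2 A) :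
    ‖push hg ξ‖ = ‖ξ‖ := (pushI hg).norm_map ξ

theorem pull_comp_push {g : A → B} (hg : Function.Injective g) :
    pull hg ∘L push hg = 1 := (pushI hg).adjoint_comp_self

theorem pull_apply {g : A → B} (hg : Function.Injective g) (ξ : L2 B) (a : A) :
    pull hg ξ a = ξ (g a) := by
  rw [← inner_delta, pull, adjoint_inner_right, push_delta, inner_delta]

theorem norm_pull_apply_le {g : A → B} (hg : Function.Injective g) (ξ : L2 B) :
    ‖pull hg ξ‖ ≤ ‖ξ‖ := by
  have h1 : ‖pull hg‖ ≤ 1 := by
    rw [pull, LinearIsometryEquiv.norm_map]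
    exact opNorm_le_bound _ zero_le_one fun ξ => by rw [norm_push_apply, one_mul]
  calc ‖pull hg ξ‖ ≤ ‖pull hg‖ * ‖ξ‖ := le_opNorm _ _
    _ ≤ 1 * ‖ξ‖ := by gcongr
    _ = ‖ξ‖ := one_mul _

/-- The projection onto the coordinates in the range of `g`. -/
noncomputable def proj {g : A → B} (hg : Function.Injective g) : L2 B →L[ℂ] L2 B :=
  push hg ∘L pull hg

theorem proj_delta_mem {g : A → B} (hg : Function.Injective g) (a : A) :
    proj hg (delta (g a)) = delta (g a) := by
  have := congrArg (fun T => T (delta a)) (pull_comp_push hg)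
  simp only [comp_apply, push_delta] at this
  rw [proj, comp_apply, this]
  exact push_delta hg a

theorem proj_delta_notMem {g : A → B} (hg : Function.Injective g) {b : B} (hb : b ∉ Set.range g) :
    proj hg (delta b) = 0 := by
  have : pull hg (delta b) = 0 := by
    ext a
    rw [pull_apply, delta_apply_ne]; · rfl
    rintro rfl; exact hb ⟨a, rfl⟩
  rw [proj, comp_apply, this, map_zero]

theorem isStarProjection_proj {g : A → B} (hg : Function.Injective g) :
    IsStarProjection (proj hg) := by
  constructor
  · show proj hg ∘L proj hg = proj hg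
    rw [proj, comp_assoc, ← comp_assoc (pull hg), pull_comp_push]; rfl
  · show adjoint (proj hg) = proj hg
    rw [proj, adjoint_comp, pull, adjoint_adjoint]

theorem compact_rankOne {E : Type*} [NormedAddCommGroup E] [InnerProductSpace ℂ E] (x y : E) :
    IsCompactOperator (rankOne ℂ x y) := by
  rw [rankOne_def']
  exact (isCompactOperator_of_locallyCompactSpace_dom (innerSL ℂ y)).clm_comp
    (toSpanSingleton ℂ x)

theorem compact_of_finite_support (T : L2 X →L[ℂ] L2 X) (h : {y | T (delta y) ≠ 0}.Finite) :
    IsCompactOperator T := by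
  classical
  have e : T = ∑ y ∈ h.toFinset, rankOne ℂ (T (delta y)) (delta y) := by
    apply clm_ext
    intro x
    rw [_root_.sum_apply, Finset.sum_eq_single x]
    · simp [norm_delta]
    · intro y _ hy
      simp [inner_delta, delta_apply_ne hy]
    · intro hx
      have : T (delta x) = 0 := by simpa using hx
      simp [this]
  rw [e]
  have : ∀ s : Finset X, IsCompactOperator (∑ y ∈ s, rankOne ℂ (T (delta y)) (delta y) :
      L2 X →L[ℂ] L2 X) := by
    intro s
    induction s using Finset.induction_on with
    | empty => simpa using isCompactOperator_zero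
    | insert a s ha ih =>
      rw [Finset.sum_insert ha]
      exact (compact_rankOne _ _).add ih
  exact this _

end l2

section roe
variable {X : Type*} [MetricSpace X]

/-- The algebra of finite propagation operators. -/
def fpAlg (X : Type*) [MetricSpace X] : Subalgebra ℂ (L2 X →L[ℂ] L2 X) where
  carrier := {T | FiniteProp T}
  mul_mem' := by
    rintro S T ⟨R, hR⟩ ⟨R', hR'⟩
    refine ⟨R + R', fun x y h => ?_⟩
    by_contra hlt
    apply h
    have h1 := ((hasSum_delta (T (delta y))).mapL S).mapL (innerSL ℂ (delta x))
    have h2 : ∀ z, innerSL ℂ (delta x) (S ((T (delta y)) z • delta z)) = 0 := by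
      intro z
      rw [map_smul, map_smul, ← entry_eq]
      by_cases hz : entry T z y = 0
      · simp [hz]
      · have h3 := hR' z y hz
        have h4 : entry S x z = 0 := by
          by_contra h5
          have := hR x z h5
          have := dist_triangle x z y
          exact hlt (by linarith)
        have : innerSL ℂ (delta x) (S (delta z)) = 0 := h4
        rw [this, smul_zero]
    simp only [h2] at h1
    exact h1.unique hasSum_zero
  add_mem' := by
    rintro S T ⟨R, hR⟩ ⟨R', hR'⟩
    refine ⟨max R R', fun x y h => ?_⟩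
    have e : entry (S + T) x y = entry S x y + entry T x y := by simp [entry]
    by_cases h1 : entry S x y = 0
    · exact (hR' x y (by rwa [e, h1, zero_add] at h)).trans (le_max_right _ _)
    · exact (hR x y h1).trans (le_max_left _ _)
  algebraMap_mem' := by
    intro c
    refine ⟨0, fun x y h => ?_⟩
    by_contra hne
    apply h
    have : x ≠ y := by rintro rfl; simp at hne
    rw [entry_eq]
    simp [Algebra.algebraMap_eq_smul_one, delta_apply_ne this]

/-- The uniform Roe algebra as a subalgebra. -/
noncomputable def roeAlg (X : Type*) [MetricSpace X] : Subalgebra ℂ (L2 X →L[ℂ] L2 X) :=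
  (fpAlg X).topologicalClosure

theorem mem_roeAlg {T : L2 X →L[ℂ] L2 X} : T ∈ roeAlg X ↔ T ∈ uniformRoe X := Iff.rfl

theorem isClosed_roeAlg : IsClosed (roeAlg X : Set (L2 X →L[ℂ] L2 X)) :=
  Subalgebra.isClosed_topologicalClosure _

theorem proj_mem {A : Type*} {g : A → X} (hg : Function.Injective g) : proj hg ∈ roeAlg X := by
  apply subset_closure
  refine ⟨0, fun x y h => ?_⟩
  by_contra hne
  apply h
  have : x ≠ y := by rintro rfl; simp at hne
  rw [entry_eq]
  by_cases hy : y ∈ Set.range g
  · obtain ⟨a, rfl⟩ := hy
    rw [proj_delta_mem, delta_apply_ne this]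
  · rw [proj_delta_notMem hg hy]; rfl

theorem rankOne_mem (ξ : L2 X) : rankOne ℂ ξ ξ ∈ roeAlg X := by
  have h1 : Filter.Tendsto (fun s : Finset X => ∑ x ∈ s, ξ x • delta x) Filter.atTop (nhds ξ) :=
    hasSum_delta ξ
  have hc : Continuous fun η : L2 X => rankOne ℂ η η :=
    by
      simp only [rankOne_def']
      exact ((toSpanSingletonCLE (𝕜 := ℂ) (E := L2 X)).continuous).clm_comp
        (innerSL ℂ (E := L2 X)).continuous
  refine mem_closure_of_tendsto ((hc.tendsto ξ).comp h1) (Filter.Eventually.of_forall fun s => ?_)
  have hs : ∀ z, z ∉ s → (∑ x ∈ s, ξ x • delta x : L2 X) z = 0 := by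
    intro z hz
    rw [← inner_delta, inner_sum]
    refine Finset.sum_eq_zero fun x hx => ?_
    rw [inner_smul_right, inner_delta, delta_apply_ne, mul_zero]
    rintro rfl; exact hz hx
  refine ⟨Metric.diam (s : Set X), fun x y h => ?_⟩
  simp only [entry, Function.comp, rankOne_apply, inner_smul_right] at h
  rw [← inner_conj_symm, inner_delta, inner_delta] at h
  have hx : x ∈ s := by
    by_contra hx; exact h (by rw [hs x hx, mul_zero])
  have hy : y ∈ s := by
    by_contra hy; exact h (by rw [hs y hy]; simp)
  exact Metric.dist_le_diam_of_mem s.finite_toSet.isBounded hx hy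

theorem tsum_pow_mem {c : L2 X →L[ℂ] L2 X} (hc : c ∈ roeAlg X) (h : ‖c‖ < 1) :
    ∑' k : ℕ, c ^ k ∈ roeAlg X := by
  have := (summable_geometric_of_norm_lt_one h).hasSum
  exact isClosed_roeAlg.mem_of_tendsto this (Filter.Eventually.of_forall fun s =>
    Subalgebra.sum_mem _ fun k _ => Subalgebra.pow_mem _ hc k)

end roe

end Pool.Agent.P.MP_7884fa_an
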