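import Pool.Agent.P.MP_7884fa_an.Defs
import Pool.Agent.P.MP_7884fa_an.CtMgg

/-! The coarse disjoint union of the Margulis-Gabber-Galil graphs as a metric space. -/

namespace Pool.Agent.P.MP_7884fa_an.Ct

open Pool.Agent.P.MP_7884fa_an

/-- The `n`-th torus. -/
abbrev Fb (n : ℕ) : Type := ZMod (n + 1) × ZMod (n + 1)

/-- The union of all tori. -/
abbrev XX : Type := Σ n : ℕ, Fb n

/-- The index set of the moves. -/
abbrev II : Type := Bool × Bool × Bool

/-- The moves on the union. -/
def mv (i : II) (x : XX) : XX := ⟨x.1, Mgg.step i x.2⟩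

theorem mv_inj (i : II) : Function.Injective (mv i) := by
  rintro ⟨n, a⟩ ⟨m, b⟩ h
  obtain rfl : n = m := congrArg Sigma.fst h
  have h2 : Mgg.step i a = Mgg.step i b := by
    simpa [mv] using h
  rw [Mgg.step_inj i h2]

/-- The graph of the moves. -/
def gr : SimpleGraph XX := SimpleGraph.fromRel fun x y => ∃ i, mv i x = y

theorem adj_fst {x y : XX} (h : gr.Adj x y) : x.1 = y.1 := by
  obtain ⟨-, ⟨i, rfl⟩ | ⟨i, rfl⟩⟩ := (SimpleGraph.fromRel_adj _ _ _).1 h <;> rfl

theorem walk_fst {x y : XX} (p : gr.Walk x y) : x.1 = y.1 := by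
  induction p with
  | nil => rfl
  | cons h _ ih => exact (adj_fst h).trans ih

theorem edist_fst {x y : XX} (h : gr.edist x y ≠ ⊤) : x.1 = y.1 := by
  obtain ⟨p, -⟩ := SimpleGraph.exists_walk_of_edist_ne_top h
  exact walk_fst p

/-- The truncated distance. -/
noncomputable def ee (x y : XX) : ℕ∞ := min (gr.edist x y) ((x.1 + y.1 + 2 : ℕ) : ℕ∞)

theorem ee_ne_top (x y : XX) : ee x y ≠ ⊤ :=
  ne_top_of_le_ne_top (ENat.natCast_ne_top _) (min_le_right _ _)

theorem ee_tri (x y z : XX) : ee x z ≤ ee x y + ee y z := by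
  have hxy := ee_ne_top x y
  have hyz := ee_ne_top y z
  unfold ee at *
  rcases min_choice (gr.edist x y) ((x.1 + y.1 + 2 : ℕ) : ℕ∞) with h1 | h1 <;>
    rcases min_choice (gr.edist y z) ((y.1 + z.1 + 2 : ℕ) : ℕ∞) with h2 | h2 <;>
    rw [h1] at hxy ⊢ <;> rw [h2] at hyz ⊢
  · exact (min_le_left _ _).trans SimpleGraph.edist_triangle
  · rw [edist_fst hxy]
    exact (min_le_right _ _).trans le_add_self
  · rw [← edist_fst hyz]
    exact (min_le_right _ _).trans le_self_add
  · refine (min_le_right _ _).trans ?_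
    rw [← Nat.cast_add, Nat.cast_le]
    omega

/-- The distance as a natural number. -/
noncomputable def dd (x y : XX) : ℕ := (ee x y).toNat

theorem coe_dd (x y : XX) : (dd x y : ℕ∞) = ee x y := ENat.natCast_toNat (ee_ne_top x y)

/-- The metric on the union. -/
@[reducible] noncomputable def met : MetricSpace XX where
  dist x y := dd x y
  dist_self x := by simp [dd, ee]
  dist_comm x y := by
    simp only [dd, ee]
    rw [SimpleGraph.edist_comm, add_comm x.1 y.1]
  dist_triangle x y z := by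
    have h := ee_tri x y z
    rw [← coe_dd, ← coe_dd, ← coe_dd, ← Nat.cast_add, Nat.cast_le] at h
    exact_mod_cast h
  eq_of_dist_eq_zero {x y} h := by
    have h1 : dd x y = 0 := by exact_mod_cast h
    have h2 := coe_dd x y
    rw [h1] at h2
    unfold ee at h2
    rcases min_choice (gr.edist x y) ((x.1 + y.1 + 2 : ℕ) : ℕ∞) with h3 | h3 <;> rw [h3] at h2
    · exact (SimpleGraph.edist_eq_zero_iff (G := gr)).1 h2.symm
    · have := Nat.cast_injective (R := ℕ∞) h2
      omega

theorem dd_mv (i : II) (x : XX) : dd x (mv i x) ≤ 1 := by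
  have h : gr.edist x (mv i x) ≤ 1 := by
    rw [SimpleGraph.edist_le_one_iff_adj_or_eq]
    by_cases e : x = mv i x
    · exact Or.inr e
    · exact Or.inl ((SimpleGraph.fromRel_adj _ _ _).2 ⟨e, Or.inl ⟨i, rfl⟩⟩)
  have h2 : (dd x (mv i x) : ℕ∞) ≤ (1 : ℕ) := by
    rw [coe_dd]
    exact (min_le_left _ _).trans h
  exact_mod_cast h2

theorem dd_far {x y : XX} (h : x.1 ≠ y.1) : dd x y = x.1 + y.1 + 2 := by
  have h1 : gr.edist x y = ⊤ := by
    by_contra h2
    exact h (edist_fst h2)
  simp only [dd, ee, h1, min_eq_right le_top, ENat.toNat_natCast]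

/-- All one-step moves: stay, move forwards, move backwards. -/
noncomputable def uu : Option (II × Bool) → XX → XX
  | none => id
  | some (i, true) => mv i
  | some (i, false) => Function.invFun (mv i)

open Classical in
/-- A finite set containing the combinatorial ball. -/
noncomputable def bb (x : XX) : ℕ → Finset XX
  | 0 => {x}
  | k + 1 => Finset.univ.biUnion fun j => (bb x k).image (uu j)

theorem card_bb (x : XX) (k : ℕ) : (bb x k).card ≤ 17 ^ k := by
  classical
  induction k with
  | zero => simp [bb]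
  | succ k ih =>
    rw [bb]
    refine (Finset.card_biUnion_le_card_mul _ _ (17 ^ k) fun j _ => ?_).trans ?_
    · exact Finset.card_image_le.trans ih
    · simp [pow_succ, mul_comm]

theorem mem_bb (x : XX) (k : ℕ) : ∀ y (p : gr.Walk y x), p.length ≤ k → y ∈ bb x k := by
  classical
  induction k with
  | zero =>
    intro y p hp
    have : y = x := p.eq_of_length_eq_zero (Nat.le_zero.1 hp)
    simp [bb, this]
  | succ k ih =>
    intro y p hp
    rw [bb]
    simp only [Finset.mem_biUnion, Finset.mem_univ, true_and, Finset.mem_image]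
    cases p with
    | nil => exact ⟨none, _, ih _ .nil (Nat.zero_le _), rfl⟩
    | cons h q =>
      have hq := ih _ q (by simpa using hp)
      obtain ⟨-, ⟨i, rfl⟩ | ⟨i, rfl⟩⟩ := (SimpleGraph.fromRel_adj _ _ _).1 h
      · exact ⟨some (i, false), _, hq, Function.leftInverse_invFun (mv_inj i) y⟩
      · exact ⟨some (i, true), _, hq, rfl⟩

theorem ulf : @ULF XX met := by
  classical
  let _ := met
  intro r _
  let L : Finset XX := (Finset.range ⌈r⌉₊).sigma fun _ => Finset.univ
  refine ⟨17 ^ ⌈r⌉₊ + L.card, fun x => ?_⟩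
  have hs : Metric.ball x r ⊆ ((bb x ⌈r⌉₊ ∪ L : Finset XX) : Set XX) := by
    intro y hy
    have h1 : (dd y x : ℝ) < r := hy
    have h2 : dd y x ≤ ⌈r⌉₊ := by exact_mod_cast h1.le.trans (Nat.le_ceil r)
    have h3 := coe_dd y x
    have h4 := ee_ne_top y x
    rw [Finset.mem_coe, Finset.mem_union]
    unfold ee at h3 h4
    rcases min_choice (gr.edist y x) ((y.1 + x.1 + 2 : ℕ) : ℕ∞) with h5 | h5 <;>
      rw [h5] at h3 h4
    · obtain ⟨p, hp⟩ := SimpleGraph.exists_walk_of_edist_ne_top h4
      refine Or.inl (mem_bb x _ y p ?_)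
      have := Nat.cast_injective (R := ℕ∞) (hp.trans h3.symm)
      omega
    · have := Nat.cast_injective (R := ℕ∞) h3
      refine Or.inr (Finset.mem_sigma.2 ⟨Finset.mem_range.2 (by omega), Finset.mem_univ _⟩)
  refine (Set.encard_le_encard hs).trans ?_
  rw [Set.encard_coe_eq_coe_finsetCard, Nat.cast_le]
  exact (Finset.card_union_le _ _).trans (Nat.add_le_add_right (card_bb x _) _)

theorem finite_le (n : ℕ) : {x : XX | x.1 ≤ n}.Finite := by
  refine ((Finset.range (n + 1)).sigma fun _ => Finset.univ : Finset XX).finite_toSet.subset ?_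
  intro x hx
  exact Finset.mem_sigma.2 ⟨Finset.mem_range.2 (Nat.lt_succ_of_le hx), Finset.mem_univ _⟩

theorem sparse : @IsSparse XX met Set.univ := by
  let _ := met
  refine ⟨fun n => {x | x.1 = n}, fun n => ⟨(finite_le n).subset fun x hx => le_of_eq hx,
    ⟨⟨n, 0⟩, rfl⟩⟩, fun n m h => ?_, ?_, fun R => ⟨⌈R⌉₊, fun n m h hN x hx y hy => ?_⟩⟩
  · exact Set.disjoint_left.2 fun x h1 h2 => h (h1.symm.trans h2)
  · exact Set.eq_univ_of_forall fun x => Set.mem_iUnion.2 ⟨x.1, rfl⟩
  · have h1 : x.1 = n := hx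
    have h2 : y.1 = m := hy
    show R ≤ (dd x y : ℝ)
    refine (Nat.le_ceil R).trans ?_
    rw [dd_far (by rw [h1, h2]; exact h), Nat.cast_le]
    omega

end Pool.Agent.P.MP_7884fa_an.Ct
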