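import Pool.Agent.P.MP_7884fa_an.Regular
import Pool.Agent.P.MP_7884fa_an.CtSpace

/-! The averaging projection of the expander sequence is a non-compact ghost projection. -/

namespace Pool.Agent.P.MP_7884fa_an.Ct

open Pool.Agent.P.MP_7884fa_an
open scoped InnerProductSpace
open InnerProductSpace ContinuousLinearMap

/-- The normalised indicator of the `n`-th torus. -/
noncomputable def un (n : ℕ) : L2 XX :=
  ∑ a : Fb n, (((n + 1 : ℕ) : ℂ))⁻¹ • delta (⟨n, a⟩ : XX)

theorem inner_un (n : ℕ) (ξ : L2 XX) :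
    ⟪un n, ξ⟫_ℂ = (((n + 1 : ℕ) : ℂ))⁻¹ * ∑ a : Fb n, ξ ⟨n, a⟩ := by
  rw [un, sum_inner, Finset.mul_sum]
  refine Finset.sum_congr rfl fun a _ => ?_
  rw [inner_smul_left, inner_delta]
  simp

theorem un_apply (n : ℕ) (x : XX) :
    un n x = if x.1 = n then (((n + 1 : ℕ) : ℂ))⁻¹ else 0 := by
  rw [← inner_delta, un, inner_sum]
  simp only [inner_smul_right, inner_delta]
  obtain ⟨m, b⟩ := x
  split_ifs with h
  · obtain rfl : m = n := h
    rw [Finset.sum_eq_single b]
    · rw [delta_apply_self, mul_one]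
    · intro a _ ha
      rw [delta_apply_ne, mul_zero]
      intro e
      exact ha (by simpa using e.symm)
    · simp
  · refine Finset.sum_eq_zero fun a _ => ?_
    rw [delta_apply_ne, mul_zero]
    intro e
    exact h (congrArg Sigma.fst e)

theorem on_un : Orthonormal ℂ un := by
  classical
  rw [orthonormal_iff_ite]
  intro n m
  rw [inner_un]
  simp only [un_apply]
  split_ifs with h
  · subst h
    have : ((n + 1 : ℕ) : ℂ) ≠ 0 := Nat.cast_ne_zero.2 (Nat.succ_ne_zero n)
    simp only [Finset.sum_const, Finset.card_univ, Fintype.card_prod, ZMod.card, nsmul_eq_mul]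
    push_cast at this ⊢
    field_simp
  · simp

/-- The isometry with the normalised indicators as columns. -/
noncomputable def VI : L2 ℕ →ₗᵢ[ℂ] L2 XX := on_un.orthogonalFamily.linearIsometry

/-- The same as a bounded operator. -/
noncomputable def VV : L2 ℕ →L[ℂ] L2 XX := VI.toContinuousLinearMap

theorem VV_delta (n : ℕ) : VV (delta n) = un n := by
  have := @OrthogonalFamily.linearIsometry_apply_single ℕ ℂ _ (L2 XX) _ _ (fun _ => ℂ) _ _ _ _
    on_un.orthogonalFamily (Classical.decEq ℕ) n 1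
  rw [LinearIsometry.toSpanSingleton_apply, one_smul] at this
  exact this

theorem adj_VV : adjoint VV ∘L VV = 1 := VI.adjoint_comp_self

theorem adj_apply (ξ : L2 XX) (n : ℕ) : adjoint VV ξ n = ⟪un n, ξ⟫_ℂ := by
  rw [← inner_delta, adjoint_inner_right, VV_delta]

/-- The averaging projection. -/
noncomputable def pp : L2 XX →L[ℂ] L2 XX := VV ∘L adjoint VV

theorem pp_proj : IsStarProjection pp := by
  constructor
  · show pp ∘L pp = pp
    rw [pp, comp_assoc, ← comp_assoc (adjoint VV), adj_VV]; rfl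
  · show adjoint pp = pp
    rw [pp, adjoint_comp, adjoint_adjoint]

theorem pp_delta (y : XX) : pp (delta y) = (((y.1 + 1 : ℕ) : ℂ))⁻¹ • un y.1 := by
  have : adjoint VV (delta y) = (((y.1 + 1 : ℕ) : ℂ))⁻¹ • delta y.1 := by
    ext n
    rw [adj_apply, ← inner_conj_symm, inner_delta, un_apply, lp.coeFn_smul, Pi.smul_apply]
    split_ifs with h
    · subst h
      rw [delta_apply_self]; simp
    · rw [delta_apply_ne (Ne.symm h)]; simp
  rw [pp, comp_apply, this, map_smul, VV_delta]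

theorem pp_cols (ε : ℝ) (hε : 0 < ε) : {y | ε ≤ ‖pp (delta y)‖}.Finite := by
  refine (finite_le ⌈ε⁻¹⌉₊).subset fun y hy => ?_
  have h1 : ε ≤ ‖pp (delta y)‖ := hy
  rw [pp_delta, norm_smul, on_un.1, mul_one, norm_inv, Complex.norm_natCast] at h1
  have h2 : ((y.1 + 1 : ℕ) : ℝ) ≤ ε⁻¹ := by
    rwa [le_inv_comm₀ hε (by positivity)] at h1
  have h3 : y.1 + 1 ≤ ⌈ε⁻¹⌉₊ := by exact_mod_cast h2.trans (Nat.le_ceil _)
  show y.1 ≤ _
  omega

theorem pp_noncpt : ¬ IsCompactOperator pp := by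
  intro h
  have h1 : IsCompactOperator (adjoint VV ∘L pp ∘L VV) := (h.comp_clm VV).clm_comp (adjoint VV)
  have h2 : adjoint VV ∘L pp ∘L VV = 1 := by
    rw [pp, comp_assoc, adj_VV]
    exact adj_VV
  rw [h2] at h1
  have h3 : FiniteDimensional ℂ (L2 ℕ) := isCompactOperator_id_iff_finiteDimensional.1 h1
  exact Module.Finite.not_linearIndependent_of_infinite _
    (orthonormal_delta (X := ℕ)).linearIndependent

theorem pull_un (i : II) (n : ℕ) : pull (mv_inj i) (un n) = un n := by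
  ext x
  rw [pull_apply, un_apply, un_apply]
  rfl

theorem push_un (i : II) (n : ℕ) : push (mv_inj i) (un n) = un n := by
  have h1 : ⟪push (mv_inj i) (un n), un n⟫_ℂ = 1 := by
    rw [← adjoint_inner_right]
    show ⟪un n, pull (mv_inj i) (un n)⟫_ℂ = 1
    rw [pull_un, inner_self_eq_norm_sq_to_K, on_un.1]; simp
  exact (inner_eq_one_iff_of_norm_eq_one (𝕜 := ℂ)
    ((norm_push_apply _ _).trans (on_un.1 n)) (on_un.1 n)).1 h1

theorem pull_pp (i : II) : pull (mv_inj i) * pp = pp := by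
  have : pull (mv_inj i) ∘L VV = VV := clm_ext fun n => by rw [comp_apply, VV_delta, pull_un]
  show pull (mv_inj i) ∘L pp = pp
  rw [pp, ← comp_assoc, this]

theorem pp_pull (i : II) : pp * pull (mv_inj i) = pp := by
  have : push (mv_inj i) ∘L VV = VV := clm_ext fun n => by rw [comp_apply, VV_delta, push_un]
  show pp ∘L pull (mv_inj i) = pp
  rw [pp, comp_assoc, pull, ← adjoint_comp, this]

/-- The Markov operator. -/
noncomputable def AA : L2 XX →L[ℂ] L2 XX := (8 : ℂ)⁻¹ • ∑ i : II, pull (mv_inj i)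

theorem AA_pp : AA * pp = pp := by
  rw [AA, smul_mul_assoc, Finset.sum_mul]
  simp only [pull_pp, Finset.sum_const, Finset.card_univ, Fintype.card_prod, Fintype.card_bool]
  rw [← Nat.cast_smul_eq_nsmul ℂ, smul_smul]; norm_num

theorem pp_AA : pp * AA = pp := by
  rw [AA, mul_smul_comm, Finset.mul_sum]
  simp only [pp_pull, Finset.sum_const, Finset.card_univ, Fintype.card_prod, Fintype.card_bool]
  rw [← Nat.cast_smul_eq_nsmul ℂ, smul_smul]; norm_num

theorem AA_apply (ξ : L2 XX) (x : XX) : AA ξ x = (8 : ℂ)⁻¹ * ∑ i : II, ξ (mv i x) := by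
  rw [← inner_delta, AA, smul_apply, _root_.sum_apply, inner_smul_right, inner_sum]
  simp only [inner_delta, pull_apply]

theorem gap_fb {n : ℕ} (g : Fb n → ℂ) (hg : ∑ a, g a = 0) :
    ∑ a, ‖∑ i : II, g (Mgg.step i a)‖ ^ 2 ≤ 60 * ∑ a, ‖g a‖ ^ 2 := by
  have h1 := Mgg.op_sq (fun a => (g a).re) (by rw [← Complex.re_sum, hg]; rfl)
  have h2 := Mgg.op_sq (fun a => (g a).im) (by rw [← Complex.im_sum, hg]; rfl)
  simp only [Mgg.op] at h1 h2
  simp only [Complex.sq_norm, Complex.normSq_apply, Complex.re_sum, Complex.im_sum, ← sq,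
    Finset.sum_add_distrib]
  linarith

theorem gap (η : L2 XX) (h : ∀ n, ⟪un n, η⟫_ℂ = 0) : ‖AA η‖ ≤ 31 / 32 * ‖η‖ := by
  classical
  have h2 : (0 : ℝ) < (2 : ENNReal).toReal := by norm_num
  refine lp.norm_le_of_forall_sum_le h2 (by positivity) fun s => ?_
  let t : Finset XX := (s.image Sigma.fst).sigma fun _ => Finset.univ
  have hst : s ⊆ t := fun x hx =>
    Finset.mem_sigma.2 ⟨Finset.mem_image_of_mem _ hx, Finset.mem_univ _⟩
  have h3 := lp.sum_rpow_le_norm_rpow h2 η t
  simp only [ENNReal.toReal_ofNat, Real.rpow_ofNat] at h3 ⊢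
  refine (Finset.sum_le_sum_of_subset_of_nonneg hst fun _ _ _ => sq_nonneg _).trans ?_
  have h4 : ∑ x ∈ t, ‖AA η x‖ ^ 2 ≤ 60 / 64 * ∑ x ∈ t, ‖η x‖ ^ 2 := by
    rw [Finset.sum_sigma, Finset.sum_sigma, Finset.mul_sum]
    refine Finset.sum_le_sum fun n _ => ?_
    have h5 : ∑ a : Fb n, η ⟨n, a⟩ = 0 := by
      have := h n
      rw [inner_un, mul_eq_zero] at this
      exact this.resolve_left (inv_ne_zero (Nat.cast_ne_zero.2 (Nat.succ_ne_zero n)))
    have h6 := gap_fb (fun a => η ⟨n, a⟩) h5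
    have h7 : ∀ a : Fb n, ‖AA η ⟨n, a⟩‖ ^ 2 =
        1 / 64 * ‖∑ i : II, η ⟨n, Mgg.step i a⟩‖ ^ 2 := by
      intro a
      rw [AA_apply, norm_mul, mul_pow]
      congr 1
      norm_num
    simp only [h7, ← Finset.mul_sum]
    linarith
  nlinarith [sq_nonneg ‖η‖]

theorem norm_cc : ‖AA - pp‖ < 1 := by
  refine lt_of_le_of_lt (opNorm_le_bound _ (by norm_num) fun ξ => ?_)
    (by norm_num : (31 / 32 : ℝ) < 1)
  have h1 : (AA - pp) ξ = AA ((1 - pp) ξ) := by
    show _ = (AA * (1 - pp)) ξ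
    rw [mul_sub, mul_one, AA_pp]
  rw [h1]
  refine (gap _ fun n => ?_).trans ?_
  · have h2 : pp (un n) = un n := by
      rw [← VV_delta, pp, comp_apply, ← comp_apply (adjoint VV), adj_VV]; rfl
    rw [sub_apply, inner_sub_right, ← inner_proj pp_proj, h2]; simp
  · gcongr
    exact norm_apply_le_of_proj pp_proj.one_sub ξ

theorem AA_pow (k : ℕ) : AA ^ (k + 1) = pp + (AA - pp) ^ (k + 1) := by
  have hp : pp * pp = pp := pp_proj.isIdempotentElem
  have h1 : (AA - pp) * pp = 0 := by rw [sub_mul, AA_pp, hp, sub_self]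
  induction k with
  | zero => simp
  | succ k ih =>
    have h2 : (AA - pp) ^ (k + 1) * pp = 0 := by rw [pow_succ, mul_assoc, h1, mul_zero]
    rw [pow_succ AA, ih, add_mul, pp_AA, pow_succ (AA - pp) (k + 1), mul_sub, h2, sub_zero]

theorem pp_bad : @Bad XX met pp := by
  let _ := met
  refine ⟨?_, pp_proj, pp_noncpt, pp_cols⟩
  have hA : AA ∈ roeAlg XX := by
    refine Subalgebra.smul_mem _ (Subalgebra.sum_mem _ fun i _ => subset_closure ?_) _
    refine ⟨1, fun x y h => ?_⟩
    rw [entry_eq, pull_apply] at h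
    obtain rfl : mv i x = y := by
      by_contra e
      exact h (delta_apply_ne e)
    show (dd x (mv i x) : ℝ) ≤ 1
    exact_mod_cast dd_mv i x
  have h1 := (tendsto_pow_atTop_nhds_zero_of_norm_lt_one norm_cc).comp
    (Filter.tendsto_add_atTop_nat 1)
  have h2 := h1.const_add pp
  rw [add_zero] at h2
  refine isClosed_roeAlg.mem_of_tendsto h2 (Filter.Eventually.of_forall fun k => ?_)
  show pp + (AA - pp) ^ (k + 1) ∈ roeAlg XX
  rw [← AA_pow]
  exact Subalgebra.pow_mem _ hA _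

theorem fails : ¬ @OnlyCompactGhostProj XX met := by
  let _ := met
  intro h
  have hb := pp_bad.transport (A := (Set.univ : Set XX)) Subtype.val_injective
    (fun x _ => ⟨⟨x, trivial⟩, rfl⟩) fun R => ⟨R, fun _ _ h => h⟩
  exact hb.noncpt (h _ sparse _ hb.mem (ghost_of_cols hb.proj hb.cols) hb.proj)

end Pool.Agent.P.MP_7884fa_an.Ct
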