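import Pool.Agent.P.MP_7884fa_an.Regular

/-! Spaces of asymptotic dimension at most one, such as the integers, have the property. -/

namespace Pool.Agent.P.MP_7884fa_an.Ct

open Pool.Agent.P.MP_7884fa_an
open scoped InnerProductSpace
open InnerProductSpace ContinuousLinearMap

theorem pyth {E K : Type*} [NormedAddCommGroup E] [InnerProductSpace ℂ E] (v : K → E)
    (t : Finset K) (h : ∀ k ∈ t, ∀ l ∈ t, k ≠ l → ⟪v k, v l⟫_ℂ = 0) :
    ‖∑ k ∈ t, v k‖ ^ 2 = ∑ k ∈ t, ‖v k‖ ^ 2 := by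
  rw [← inner_self_eq_norm_sq (𝕜 := ℂ), sum_inner, map_sum]
  refine Finset.sum_congr rfl fun k hk => ?_
  rw [inner_sum, Finset.sum_eq_single k (fun l hl hne => h k hk l hl hne.symm)
    (fun hk' => absurd hk hk'), inner_self_eq_norm_sq]

variable {Y : Type*}

/-- A finitely supported vector. -/
noncomputable def vec (a : Y → ℂ) (t : Finset Y) : L2 Y := ∑ y ∈ t, a y • delta y

theorem norm_vec (a : Y → ℂ) (t : Finset Y) : ‖vec a t‖ ^ 2 = ∑ y ∈ t, ‖a y‖ ^ 2 := by
  have := (orthonormal_delta (X := Y)).orthogonalFamily.norm_sum a t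
  simpa [vec] using this

theorem norm_vec_mono (a : Y → ℂ) {s t : Finset Y} (h : s ⊆ t) : ‖vec a s‖ ≤ ‖vec a t‖ := by
  refine (pow_le_pow_iff_left₀ (norm_nonneg _) (norm_nonneg _) two_ne_zero).1 ?_
  rw [norm_vec, norm_vec]
  exact Finset.sum_le_sum_of_subset_of_nonneg h fun _ _ _ => sq_nonneg _

theorem le_norm_vec (a : Y → ℂ) {t : Finset Y} {y : Y} (h : y ∈ t) : ‖a y‖ ≤ ‖vec a t‖ := by
  refine (pow_le_pow_iff_left₀ (norm_nonneg _) (norm_nonneg _) two_ne_zero).1 ?_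
  rw [norm_vec]
  exact Finset.single_le_sum (f := fun y => ‖a y‖ ^ 2) (fun _ _ => sq_nonneg _) h

theorem orth_cols [MetricSpace Y] {T : L2 Y →L[ℂ] L2 Y} {R : ℝ}
    (hR : ∀ x y, entry T x y ≠ 0 → dist x y ≤ R) {y z : Y} (h : 2 * R < dist y z) :
    ⟪T (delta y), T (delta z)⟫_ℂ = 0 := by
  rw [lp.inner_eq_tsum]
  refine (tsum_congr fun x => ?_).trans tsum_zero
  by_cases h1 : entry T x y = 0
  · rw [← entry_eq, h1, inner_zero_left]
  · have h2 : entry T x z = 0 := by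
      by_contra h3
      have h4 := hR x y h1
      have h5 := hR x z h3
      have := dist_triangle_left y z x
      linarith
    rw [← entry_eq T x z, h2, inner_zero_right]

theorem compact_of_blocks [MetricSpace Y]
    (hb : ∀ R : ℝ, ∃ (N : ℕ) (blk : Y → ℤ),
      (∀ (t : Finset Y) k, (∀ y ∈ t, blk y = k) → t.card ≤ N) ∧
      ∀ x y, blk x ≠ blk y → blk x % 2 = blk y % 2 → R < dist x y)
    {p : L2 Y →L[ℂ] L2 Y} (hm : p ∈ uniformRoe Y) (hg : IsGhost p) (hp : IsStarProjection p) :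
    IsCompactOperator p := by
  classical
  obtain ⟨T, ⟨R, hR⟩, hT⟩ := Metric.mem_closure_iff.1 hm (1 / 16) (by norm_num)
  rw [dist_eq_norm] at hT
  obtain ⟨N, blk, hN, hsep⟩ := hb (2 * R)
  set F : Set Y := {y | 1 / (16 * ((N : ℝ) + 1)) ≤ ‖p (delta y)‖} with hF
  have hFfin : F.Finite := cols_of_ghost hp hg _ (by positivity)
  have hd : ∀ ξ, ‖p ξ - T ξ‖ ≤ 1 / 16 * ‖ξ‖ := fun ξ =>
    ((p - T).le_opNorm ξ).trans (mul_le_mul_of_nonneg_right hT.le (norm_nonneg _))
  have h1 : ∀ (a : Y → ℂ) (t : Finset Y) k, (∀ y ∈ t, blk y = k) → (∀ y ∈ t, y ∉ F) →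
      ‖T (vec a t)‖ ≤ 1 / 8 * ‖vec a t‖ := by
    intro a t k hk hf
    have e1 : ‖p (vec a t)‖ ≤ t.card • (‖vec a t‖ * (1 / (16 * ((N : ℝ) + 1)))) := by
      conv_lhs => rw [vec, map_sum]
      refine (norm_sum_le _ _).trans (Finset.sum_le_card_nsmul _ _ _ fun y hy => ?_)
      rw [map_smul, norm_smul]
      exact mul_le_mul (le_norm_vec a hy) (not_le.1 (hf y hy)).le (norm_nonneg _) (norm_nonneg _)
    have e2 : (t.card : ℝ) ≤ N + 1 := by exact_mod_cast (hN t k hk).trans (Nat.le_succ N)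
    have e3 : t.card • (‖vec a t‖ * (1 / (16 * ((N : ℝ) + 1)))) ≤ 1 / 16 * ‖vec a t‖ := by
      rw [nsmul_eq_mul]
      refine (mul_le_mul_of_nonneg_right e2 (by positivity)).trans (le_of_eq ?_)
      field_simp
    have e4 := hd (vec a t)
    have e5 := norm_sub_norm_le (T (vec a t)) (p (vec a t))
    rw [norm_sub_rev] at e5
    linarith
  have h2 : ∀ (a : Y → ℂ) (t : Finset Y) (j : ℤ), (∀ y ∈ t, blk y % 2 = j) → (∀ y ∈ t, y ∉ F) →
      ‖T (vec a t)‖ ≤ 1 / 8 * ‖vec a t‖ := by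
    intro a t j hj hf
    have e1 : vec a t = ∑ k ∈ t.image blk, vec a (t.filter fun y => blk y = k) :=
      (Finset.sum_fiberwise_of_maps_to (fun y hy => Finset.mem_image_of_mem blk hy) _).symm
    have e2 : ‖vec a t‖ ^ 2 = ∑ k ∈ t.image blk, ‖vec a (t.filter fun y => blk y = k)‖ ^ 2 := by
      simp only [norm_vec]
      exact (Finset.sum_fiberwise_of_maps_to (fun y hy => Finset.mem_image_of_mem blk hy) _).symm
    refine (pow_le_pow_iff_left₀ (norm_nonneg _) (by positivity) two_ne_zero).1 ?_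
    rw [mul_pow, e2, e1, map_sum, pyth, Finset.mul_sum]
    · refine Finset.sum_le_sum fun k _ => ?_
      rw [← mul_pow]
      exact pow_le_pow_left₀ (norm_nonneg _) (h1 a _ k (fun y hy => (Finset.mem_filter.1 hy).2)
        fun y hy => hf y (Finset.mem_filter.1 hy).1) 2
    · intro k _ l _ hkl
      simp only [vec, map_sum, map_smul, sum_inner, inner_sum, inner_smul_left, inner_smul_right]
      refine Finset.sum_eq_zero fun z hz => ?_
      rw [Finset.sum_eq_zero, mul_zero]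
      intro y hy
      obtain ⟨hy1, hy2⟩ := Finset.mem_filter.1 hy
      obtain ⟨hz1, hz2⟩ := Finset.mem_filter.1 hz
      rw [orth_cols hR (hsep y z (by rw [hy2, hz2]; exact hkl) (by rw [hj y hy1, hj z hz1])),
        mul_zero]
  have h3 : ∀ (a : Y → ℂ) (t : Finset Y), (∀ y ∈ t, y ∉ F) →
      ‖p (vec a t)‖ ≤ 1 / 2 * ‖vec a t‖ := by
    intro a t hf
    have e1 : vec a t = vec a (t.filter fun y => blk y % 2 = 0) +
        vec a (t.filter fun y => ¬ blk y % 2 = 0) :=
      (Finset.sum_filter_add_sum_filter_not _ _ _).symm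
    have e2 := h2 a (t.filter fun y => blk y % 2 = 0) 0 (fun y hy => (Finset.mem_filter.1 hy).2)
      fun y hy => hf y (Finset.mem_filter.1 hy).1
    have e3 := h2 a (t.filter fun y => ¬ blk y % 2 = 0) 1
      (fun y hy => by have := (Finset.mem_filter.1 hy).2; omega)
      fun y hy => hf y (Finset.mem_filter.1 hy).1
    have e4 := norm_vec_mono a (Finset.filter_subset (fun y => blk y % 2 = 0) t)
    have e5 := norm_vec_mono a (Finset.filter_subset (fun y => ¬ blk y % 2 = 0) t)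
    have e6 : ‖T (vec a t)‖ ≤ 1 / 4 * ‖vec a t‖ := by
      conv_lhs => rw [e1, map_add]
      refine (norm_add_le _ _).trans ?_
      linarith
    have e7 := hd (vec a t)
    have e8 := norm_sub_norm_le (p (vec a t)) (T (vec a t))
    have e9 := norm_nonneg (vec a t)
    linarith
  refine compact_of_near hp (K := p * chi F)
    (compact_of_finite_support _ (hFfin.subset fun y hy => ?_)) ?_
  · by_contra hyF
    apply hy
    show p (chi F (delta y)) = 0
    rw [chi_notMem hyF, map_zero]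
  · refine lt_of_le_of_lt (opNorm_le_bound _ (by norm_num) fun ξ => ?_)
      (by norm_num : (1 / 2 : ℝ) < 1)
    have e0 : Filter.Tendsto (vec ξ) Filter.atTop (nhds ξ) := hasSum_delta ξ
    refine le_of_tendsto_of_tendsto' (((p - p * chi F).continuous.tendsto ξ).comp e0).norm
      (e0.norm.const_mul (1 / 2)) fun s => ?_
    have e1 : (p - p * chi F) (vec ξ s) = p (vec ξ (s.filter fun y => y ∉ F)) := by
      simp only [vec, map_sum, map_smul, Finset.sum_filter]
      refine Finset.sum_congr rfl fun y _ => ?_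
      show ξ y • (p (delta y) - p (chi F (delta y))) = _
      by_cases hy : y ∈ F
      · rw [chi_mem hy]; simp [hy]
      · rw [chi_notMem hy]; simp [hy]
    show ‖(p - p * chi F) (vec ξ s)‖ ≤ _
    rw [e1]
    refine (h3 _ _ fun y hy => (Finset.mem_filter.1 hy).2).trans ?_
    have := norm_vec_mono ξ (Finset.filter_subset (fun y => y ∉ F) s)
    linarith

theorem holds_int : OnlyCompactGhostProj ℤ := by
  classical
  intro S _ p hm hg hp
  refine compact_of_blocks (fun R => ⟨⌈R⌉₊ + 1, fun y => y.1 / ((⌈R⌉₊ + 1 : ℕ) : ℤ), ?_, ?_⟩)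
    hm hg hp
  · intro t k hk
    have h0 : (0 : ℤ) < ((⌈R⌉₊ + 1 : ℕ) : ℤ) := by positivity
    have h1 := Finset.card_le_card_of_injOn (s := t)
      (t := Finset.Ico (0 : ℤ) ((⌈R⌉₊ + 1 : ℕ) : ℤ))
      (fun y : S => y.1 % ((⌈R⌉₊ + 1 : ℕ) : ℤ))
      (fun y _ => Finset.mem_coe.2 (Finset.mem_Ico.2
        ⟨Int.emod_nonneg _ h0.ne', Int.emod_lt_of_pos _ h0⟩))
      (fun y hy z hz h => by
        have e1 := Int.emod_add_mul_ediv y.1 ((⌈R⌉₊ + 1 : ℕ) : ℤ)
        have e2 := Int.emod_add_mul_ediv z.1 ((⌈R⌉₊ + 1 : ℕ) : ℤ)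
        have e3 := hk y hy
        have e4 := hk z hz
        simp only at h e3 e4
        apply Subtype.ext
        rw [← e1, ← e2, h, e3, e4])
    simpa using h1
  · intro x y h1 h2
    simp only at h1 h2
    have h0 : (0 : ℤ) < ((⌈R⌉₊ + 1 : ℕ) : ℤ) := by positivity
    have hR : R < (((⌈R⌉₊ + 1 : ℕ) : ℤ) : ℝ) := by
      have := Nat.le_ceil R
      push_cast
      linarith
    refine hR.trans_le ?_
    generalize ((⌈R⌉₊ + 1 : ℕ) : ℤ) = L at *
    rw [Subtype.dist_eq, Int.dist_eq]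
    have e1 := Int.emod_add_mul_ediv x.1 L
    have e2 := Int.emod_add_mul_ediv y.1 L
    have e3 := Int.emod_nonneg x.1 h0.ne'
    have e4 := Int.emod_nonneg y.1 h0.ne'
    have e5 := Int.emod_lt_of_pos x.1 h0
    have e6 := Int.emod_lt_of_pos y.1 h0
    have e7 : L ≤ |x.1 - y.1| := by
      have : x.1 / L + 2 ≤ y.1 / L ∨ y.1 / L + 2 ≤ x.1 / L := by omega
      rcases this with h | h
      · exact le_abs.2 (Or.inr (by nlinarith))
      · exact le_abs.2 (Or.inl (by nlinarith))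
    exact_mod_cast e7

theorem ulf_int : ULF ℤ := by
  intro r _
  refine ⟨2 * ⌈r⌉₊ + 1, fun x => ?_⟩
  have hs : Metric.ball x r ⊆ ((Finset.Icc (x - ⌈r⌉₊) (x + ⌈r⌉₊) : Finset ℤ) : Set ℤ) := by
    intro y hy
    rw [Metric.mem_ball, Int.dist_eq] at hy
    have h1 : |y - x| ≤ (⌈r⌉₊ : ℤ) := by exact_mod_cast hy.le.trans (Nat.le_ceil r)
    rw [abs_le] at h1
    exact Finset.mem_coe.2 (Finset.mem_Icc.2 ⟨by omega, by omega⟩)
  refine (Set.encard_le_encard hs).trans ?_
  rw [Set.encard_coe_eq_coe_finsetCard, Nat.cast_le, Int.card_Icc]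
  omega

theorem sparse_int : IsSparse (Set.range fun n : ℕ => (n : ℤ) ^ 2) := by
  refine ⟨fun n => {(n : ℤ) ^ 2}, fun n => ⟨Set.finite_singleton _, Set.singleton_nonempty _⟩,
    fun n m h => ?_, Set.iUnion_singleton_eq_range _, fun R => ⟨⌈R⌉₊, ?_⟩⟩
  · rw [Set.disjoint_singleton]
    intro e
    exact h (Nat.pow_left_injective two_ne_zero (by exact_mod_cast e))
  · rintro n m h hN _ rfl _ rfl
    refine (Nat.le_ceil R).trans ?_
    rw [Int.dist_eq]
    have e : ((⌈R⌉₊ : ℕ) : ℤ) ≤ |(n : ℤ) ^ 2 - (m : ℤ) ^ 2| := by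
      have h1 : ((⌈R⌉₊ : ℕ) : ℤ) ≤ n + m := by exact_mod_cast hN
      have : (n : ℤ) + 1 ≤ m ∨ (m : ℤ) + 1 ≤ n := by omega
      rcases this with h | h
      · exact le_abs.2 (Or.inr (by nlinarith [Int.natCast_nonneg n]))
      · exact le_abs.2 (Or.inl (by nlinarith [Int.natCast_nonneg m]))
    exact_mod_cast e

end Pool.Agent.P.MP_7884fa_an.Ct
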