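import Pool.Agent.P.MP_7884fa_an.Main

/-! Coarse embeddings from control functions written on the real line. -/

namespace Pool.Agent.P.MP_7884fa_an.Ct

open Pool.Agent.P.MP_7884fa_an

theorem coarse_of_plain {X Y : Type*} [MetricSpace X] [MetricSpace Y] (f : Y → X) (a b : ℝ → ℝ)
    (ha : ∀ s t, 0 ≤ s → s ≤ t → a s ≤ a t) (hb : ∀ s t, 0 ≤ s → s ≤ t → b s ≤ b t)
    (hinf : ∀ R : ℝ, ∃ t, ∀ s, t ≤ s → R ≤ a s)
    (hf : ∀ y y', a (dist y y') ≤ dist (f y) (f y') ∧ dist (f y) (f y') ≤ b (dist y y')) :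
    IsCoarseEmbedding f := by
  refine ⟨fun t => (a t).toNNReal, fun t => (b t).toNNReal,
    fun s t h => Real.toNNReal_mono (ha _ _ s.2 h), fun s t h => Real.toNNReal_mono (hb _ _ s.2 h),
    ?_, fun y y' => ⟨Real.toNNReal_le_iff_le_coe.2 (hf y y').1, ?_⟩⟩
  · refine Filter.tendsto_atTop_atTop.2 fun R => ?_
    obtain ⟨t, ht⟩ := hinf R
    refine ⟨t.toNNReal, fun s hs => ?_⟩
    have := Real.toNNReal_mono (ht s (Real.toNNReal_le_iff_le_coe.1 hs))
    rwa [Real.toNNReal_coe] at this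
  · have := Real.toNNReal_mono (hf y y').2
    rwa [← coe_nndist (f y), Real.toNNReal_coe] at this

end Pool.Agent.P.MP_7884fa_an.Ct
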