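import Mathlib

namespace Pool.Agent.P.MP_7884fa_an

open scoped InnerProductSpace NNReal

/-- The Hilbert space of square summable complex functions on `X`. -/
abbrev L2 (X : Type*) : Type _ := lp (fun _ : X => ℂ) 2

/-- Bounded operators on `L2 X`. -/
abbrev Op (X : Type*) : Type _ := L2 X →L[ℂ] L2 X

/-- The standard basis vector at `x`. -/
noncomputable def delta {X : Type*} (x : X) : L2 X :=
  @lp.single X (fun _ => ℂ) _ (Classical.decEq X) 2 x 1

/-- The matrix entry of `T` at `(x, y)`, the coefficient of `delta x` in `T (delta y)`. -/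
noncomputable def entry {X : Type*} (T : Op X) (x y : X) : ℂ :=
  inner ℂ (delta x) (T (delta y))

/-- Uniformly locally finite metric spaces. -/
def ULF (X : Type*) [MetricSpace X] : Prop :=
  ∀ r : ℝ, 0 < r → ∃ N : ℕ, ∀ x : X, (Metric.ball x r).encard ≤ N

/-- Finite propagation. -/
def FiniteProp {X : Type*} [MetricSpace X] (T : Op X) : Prop :=
  ∃ R : ℝ, ∀ x y : X, entry T x y ≠ 0 → dist x y ≤ R

/-- The uniform Roe algebra: norm closure of the finite propagation operators. -/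
def uniformRoe (X : Type*) [MetricSpace X] : Set (Op X) :=
  closure {T | FiniteProp T}

/-- Ghost operators. -/
def IsGhost {X : Type*} (T : Op X) : Prop :=
  ∀ ε : ℝ, 0 < ε → ∃ F : Finset X, ∀ x y : X, ¬ (x ∈ F ∧ y ∈ F) → ‖entry T x y‖ < ε

/-- Sparse subspaces. -/
def IsSparse {X : Type*} [MetricSpace X] (S : Set X) : Prop :=
  ∃ P : ℕ → Set X, (∀ n, (P n).Finite ∧ (P n).Nonempty) ∧
    (∀ n m, n ≠ m → Disjoint (P n) (P m)) ∧ (⋃ n, P n) = S ∧
    ∀ R : ℝ, ∃ N : ℕ, ∀ n m, n ≠ m → N ≤ n + m → ∀ x ∈ P n, ∀ y ∈ P m, R ≤ dist x y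

/-- All sparse subspaces yield only compact ghost projections. -/
def OnlyCompactGhostProj (X : Type*) [MetricSpace X] : Prop :=
  ∀ S : Set X, IsSparse S → ∀ p : Op S,
    p ∈ uniformRoe S → IsGhost p → IsStarProjection p → IsCompactOperator p

/-- Coarse embeddings. -/
def IsCoarseEmbedding {Y X : Type*} [MetricSpace Y] [MetricSpace X] (f : Y → X) : Prop :=
  ∃ ρ₁ ρ₂ : ℝ≥0 → ℝ≥0, Monotone ρ₁ ∧ Monotone ρ₂ ∧ Filter.Tendsto ρ₁ Filter.atTop Filter.atTop ∧
    ∀ y y' : Y, ρ₁ (nndist y y') ≤ nndist (f y) (f y') ∧ nndist (f y) (f y') ≤ ρ₂ (nndist y y')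

end Pool.Agent.P.MP_7884fa_an
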