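import Pool.Agent.P.MP_7884fa_an.Regular

/-! The shrinking steps again, now recording a partial isometry. -/

namespace Pool.Agent.P.MP_7884fa_an.Ind

open Pool.Agent.P.MP_7884fa_an
open scoped InnerProductSpace
open InnerProductSpace ContinuousLinearMap

theorem exists_root {A : Type*} [CStarAlgebra A] (S : StarSubalgebra ℂ A)
    (hS : IsClosed (S : Set A)) {c p : A} (hc : IsSelfAdjoint c) (hm : c ∈ S) (hn : ‖c‖ < 1)
    (hp : Commute c p) :
    ∃ s ∈ S, IsSelfAdjoint s ∧ Commute s p ∧ s * (1 - c) * s = 1 := by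
  let k : ℝ → ℝ := fun t => (√(max (1 - t) (1 - ‖c‖)))⁻¹
  have hpos : ∀ t : ℝ, 0 < max (1 - t) (1 - ‖c‖) := fun t =>
    lt_of_lt_of_le (by linarith) (le_max_right _ _)
  have hk : Continuous k :=
    Continuous.inv₀ (by fun_prop) fun t => (Real.sqrt_pos.2 (hpos t)).ne'
  refine ⟨cfc k c, cfc_mem (𝕜' := ℂ) (s := S) k hm, cfc_predicate k c, hp.cfc_real k, ?_⟩
  have h1 : (1 - c) = cfc (fun t : ℝ => 1 - t) c := by
    rw [cfc_sub _ _ c, cfc_id' ℝ c, cfc_const_one ℝ c]
  rw [h1, ← cfc_mul _ _ c, ← cfc_mul _ _ c, ← cfc_const_one ℝ c]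
  refine cfc_congr fun t ht => ?_
  have h2 := norm_apply_le_norm_cfc (fun t : ℝ => t) c ht
  rw [cfc_id' ℝ c] at h2
  have h3 : max (1 - t) (1 - ‖c‖) = 1 - t :=
    max_eq_left (by have := le_abs_self t; rw [Real.norm_eq_abs] at h2; linarith)
  have h4 := hpos t
  simp only [k]
  rw [h3] at h4 ⊢
  have h5 := Real.sqrt_pos.2 h4
  have h6 := Real.mul_self_sqrt h4.le
  field_simp
  nlinarith

variable {X : Type*} [MetricSpace X]

/-- `q` is the range projection of a partial isometry of the Roe algebra whose source projection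
is below `p` and differs from `p` by a compact operator. -/
def Eqv (p q : L2 X →L[ℂ] L2 X) : Prop :=
  ∃ v ∈ roeAlg X, v * star v = q ∧ v * p = v ∧ q * v = v ∧
    IsCompactOperator (p - star v * v : L2 X →L[ℂ] L2 X)

theorem Eqv.of_sub {p q : L2 X →L[ℂ] L2 X} (hm : q ∈ roeAlg X) (hq : IsStarProjection q)
    (h : q * p = q) (hc : IsCompactOperator (p - q : L2 X →L[ℂ] L2 X)) : Eqv p q := by
  have h1 := hq.isSelfAdjoint.star_eq
  have h2 : q * q = q := hq.isIdempotentElem
  exact ⟨q, hm, by rw [h1, h2], h, h2, by rwa [h1, h2]⟩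

theorem Eqv.rfl' {p : L2 X →L[ℂ] L2 X} (hp : Bad p) : Eqv p p :=
  Eqv.of_sub hp.mem hp.proj hp.proj.isIdempotentElem (by simpa using isCompactOperator_zero)

theorem Eqv.trans {p q r : L2 X →L[ℂ] L2 X} (h1 : Eqv p q) (h2 : Eqv q r) : Eqv p r := by
  obtain ⟨v, a0, a1, a2, a3, a4⟩ := h1
  obtain ⟨w, b0, b1, b2, b3, b4⟩ := h2
  refine ⟨w * v, Subalgebra.mul_mem _ b0 a0, ?_, by rw [mul_assoc, a2],
    by rw [← mul_assoc, b3], ?_⟩
  · calc w * v * star (w * v) = w * (v * star v) * star w := by rw [star_mul]; noncomm_ring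
      _ = r := by rw [a1, b2, b1]
  · have e : p - star (w * v) * (w * v) =
        (p - star v * v) + star v * (q - star w * w) * v := by
      rw [star_mul, mul_sub, sub_mul, mul_assoc (star v) q, a3]; noncomm_ring
    rw [e]
    exact a4.add ((b4.comp_clm v).clm_comp (star v))

theorem kill_one {p : L2 X →L[ℂ] L2 X} (hp : Bad p) (y : X) :
    ∃ q, Bad q ∧ Eqv p q ∧ q (delta y) = 0 ∧ ∀ z, ‖q (delta z)‖ ≤ ‖p (delta z)‖ := by
  by_cases h0 : p (delta y) = 0
  · exact ⟨p, hp, Eqv.rfl' hp, h0, fun _ => le_rfl⟩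
  set ξ : L2 X := ((‖p (delta y)‖⁻¹ : ℝ) : ℂ) • p (delta y) with hξ
  have hn : ‖p (delta y)‖ ≠ 0 := norm_ne_zero_iff.mpr h0
  have hξ1 : ‖ξ‖ = 1 := by
    rw [hξ, norm_smul]; simp [hn]
  have hpξ : p ξ = ξ := by rw [hξ, map_smul, proj_proj hp.proj]
  set r := rankOne ℂ ξ ξ with hr
  have hrp : IsStarProjection r := isStarProjection_rankOne_self hξ1
  have h1 : p * r = r := by
    show p ∘L r = r
    rw [hr, comp_rankOne, hpξ]
  have h2 : r * p = r := by
    have := congrArg star h1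
    rwa [star_mul, hrp.isSelfAdjoint.star_eq, hp.proj.isSelfAdjoint.star_eq] at this
  have hq : IsStarProjection (p - r) := hrp.sub_of_mul_eq_left hp.proj h2
  have h5 : (p - r) * p = p - r := by rw [sub_mul, h2, hp.proj.isIdempotentElem]
  have h3 : ∀ η, (p - r) η = (p - r) (p η) := fun η =>
    (congrArg (fun T : L2 X →L[ℂ] L2 X => T η) h5).symm
  have h4 : ∀ z, ‖(p - r) (delta z)‖ ≤ ‖p (delta z)‖ := fun z => by
    rw [h3]; exact norm_apply_le_of_proj hq _
  have hm : p - r ∈ roeAlg X := Subalgebra.sub_mem _ hp.mem (rankOne_mem ξ)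
  refine ⟨p - r, ⟨hm, hq, ?_, ?_⟩, Eqv.of_sub hm hq h5 ?_, ?_, h4⟩
  · intro hc
    apply hp.noncpt
    have := hc.add (compact_rankOne ξ ξ)
    have e : (⇑(p - r) + ⇑(rankOne ℂ ξ ξ) : L2 X → L2 X) = p := by
      funext η; simp [hr]
    rwa [e] at this
  · intro ε hε
    exact (hp.cols ε hε).subset fun z hz => le_trans hz (h4 z)
  · rw [sub_sub_cancel]
    exact compact_rankOne ξ ξ
  · rw [h3]
    have e : p (delta y) = ((‖p (delta y)‖ : ℝ) : ℂ) • ξ := by
      rw [hξ, smul_smul]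
      have : ((‖p (delta y)‖ : ℝ) : ℂ) ≠ 0 := by exact_mod_cast hn
      simp [this]
    rw [e, map_smul, _root_.sub_apply, hpξ, hr, rankOne_apply, inner_self_eq_norm_sq_to_K, hξ1]
    simp

theorem kill_finset {p : L2 X →L[ℂ] L2 X} (hp : Bad p) (s : Finset X) :
    ∃ q, Bad q ∧ Eqv p q ∧ (∀ y ∈ s, q (delta y) = 0) ∧
      ∀ z, ‖q (delta z)‖ ≤ ‖p (delta z)‖ := by
  classical
  induction s using Finset.induction_on with
  | empty => exact ⟨p, hp, Eqv.rfl' hp, by simp, fun _ => le_rfl⟩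
  | insert a s _ ih =>
    obtain ⟨q, hq, h0, h1, h2⟩ := ih
    obtain ⟨q', hq', h0', h1', h2'⟩ := kill_one hq a
    refine ⟨q', hq', h0.trans h0', fun y hy => ?_, fun z => (h2' z).trans (h2 z)⟩
    rcases Finset.mem_insert.mp hy with rfl | hy
    · exact h1'
    · have := h2' y
      rw [h1 y hy, norm_zero] at this
      exact norm_le_zero_iff.mp this

theorem small {p : L2 X →L[ℂ] L2 X} (hp : Bad p) :
    ∃ q, Bad q ∧ Eqv p q ∧ (∀ y, ‖q (delta y)‖ ≤ 1 / 10) ∧
      ∀ z, p (delta z) = 0 → q (delta z) = 0 := by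
  obtain ⟨q, hq, h0, h1, h2⟩ := kill_finset hp (hp.cols (1 / 10) (by norm_num)).toFinset
  refine ⟨q, hq, h0, fun y => ?_, fun z hz => ?_⟩
  · by_cases hy : 1 / 10 ≤ ‖p (delta y)‖
    · rw [h1 y (by simpa using hy)]; simp
    · exact (h2 y).trans (le_of_not_ge hy)
  · have := h2 z
    rw [hz, norm_zero] at this
    exact norm_le_zero_iff.mp this

theorem compress {p : L2 X →L[ℂ] L2 X} (hp : Bad p) {I : Type*} {g : I → X}
    (hg : Function.Injective g) (hn : ‖p * proj hg‖ < 1) :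
    ∃ q, Bad q ∧ Eqv p q ∧ (∀ i, q (delta (g i)) = 0) ∧
      ∀ z, p (delta z) = 0 → q (delta z) = 0 := by
  set e := proj hg with he
  have hes : IsStarProjection e := isStarProjection_proj hg
  have pp : p * p = p := hp.proj.isIdempotentElem
  have ee : e * e = e := hes.isIdempotentElem
  have sp := hp.proj.isSelfAdjoint.star_eq
  have se := hes.isSelfAdjoint.star_eq
  have hc : ‖p * e * p‖ < 1 := by
    calc ‖p * e * p‖ ≤ ‖p * e‖ * ‖p‖ := norm_mul_le _ _
      _ ≤ ‖p * e‖ * 1 := by gcongr; exact hp.proj.norm_le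
      _ < 1 := by rwa [mul_one]
  have hem : e ∈ roeAlg X := proj_mem hg
  have a1 : p * (p * e * p) = p * e * p := by rw [← mul_assoc, ← mul_assoc, pp]
  obtain ⟨s, sm, ss, sc, s1⟩ := exists_root (roeStar X) isClosed_roeAlg (c := p * e * p) (p := p)
    (by show star _ = _; simp only [star_mul, sp, se, mul_assoc])
    (Subalgebra.mul_mem (roeAlg X) (Subalgebra.mul_mem _ hp.mem hem) hp.mem) hc
    (by show _ = _; rw [a1, mul_assoc, pp])
  have sc' : s * p = p * s := sc
  set v := (1 - e) * p * s with hv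
  have hvm : v ∈ roeAlg X := Subalgebra.mul_mem _ (Subalgebra.mul_mem _
    (Subalgebra.sub_mem _ (Subalgebra.one_mem _) hem) hp.mem) sm
  have hsv : star v = s * p * (1 - e) := by
    simp only [hv, star_mul, star_sub, star_one, sp, se, ss.star_eq, mul_assoc]
  have b1 : v * p = v := by rw [hv, mul_assoc, sc', ← mul_assoc, mul_assoc (1 - e), pp]
  have b2 : star v * v = p := by
    have a5 : (1 - e) * (1 - e) = 1 - e := by
      rw [mul_sub, sub_mul, sub_mul, ee]; noncomm_ring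
    have a6 : p * (1 - e) * p = p * (1 - p * e * p) := by
      rw [mul_sub, sub_mul, mul_one, pp, mul_sub, mul_one, a1]
    calc star v * v = s * (p * ((1 - e) * (1 - e)) * p) * s := by rw [hsv, hv]; noncomm_ring
      _ = s * p * (1 - p * e * p) * s := by rw [a5, a6]; noncomm_ring
      _ = p * (s * (1 - p * e * p) * s) := by rw [sc']; noncomm_ring
      _ = p := by rw [s1, mul_one]
  have b3 : v * star v * v = v := by rw [mul_assoc, b2, b1]
  have hcol : ∀ z, ‖(v * star v) (delta z)‖ ≤ ‖v * s‖ * ‖p (delta z)‖ := by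
    intro z
    have e1 : (v * star v) (delta z) = (v * s) (p ((1 - e) (delta z))) := by rw [hsv]; rfl
    rw [e1]
    refine (le_opNorm _ _).trans ?_
    gcongr
    by_cases hz : z ∈ Set.range g
    · obtain ⟨i, rfl⟩ := hz
      simp [he, proj_delta_mem]
    · simp [he, proj_delta_notMem hg hz]
  refine ⟨v * star v, ⟨Subalgebra.mul_mem _ hvm ((roeStar X).star_mem' hvm), ⟨?_, ?_⟩, ?_, ?_⟩,
    ⟨v, hvm, rfl, b1, b3, by rw [b2]; simpa using isCompactOperator_zero⟩, ?_, ?_⟩
  · show v * star v * (v * star v) = v * star v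
    rw [← mul_assoc, b3]
  · exact IsSelfAdjoint.mul_star_self v
  · intro hcq
    apply hp.noncpt
    have := (hcq.comp_clm v).clm_comp (star v)
    have e2 : p = star v * (v * star v * v) := by rw [b3, b2]
    rw [e2]
    exact this
  · intro ε hε
    set C := ‖v * s‖ + 1 with hC
    have hC0 : 0 < C := by positivity
    refine (hp.cols (ε / C) (div_pos hε hC0)).subset fun z hz => ?_
    have h4 : ε ≤ ‖(v * star v) (delta z)‖ := hz
    have h5 := hcol z
    show ε / C ≤ ‖p (delta z)‖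
    rw [div_le_iff₀ hC0]
    nlinarith [norm_nonneg (p (delta z))]
  · intro i
    have e1 : (v * star v) (delta (g i)) = (v * s * p) ((1 - e) (delta (g i))) := by
      rw [hsv]; rfl
    rw [e1]
    simp [he, proj_delta_mem]
  · intro z hz
    have := hcol z
    rw [hz, norm_zero, mul_zero] at this
    exact norm_le_zero_iff.mp this

end Pool.Agent.P.MP_7884fa_an.Ind
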