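import Pool.Agent.P.MP_7884fa_an.Equiv

/-! A ghost projection moves onto an independent set of a bounded degree graph. -/

namespace Pool.Agent.P.MP_7884fa_an.Ind

open Pool.Agent.P.MP_7884fa_an
open ContinuousLinearMap

variable {Y : Type*}

theorem miss_pairs [MetricSpace Y] {p : L2 Y →L[ℂ] L2 Y} (hp : Bad p) {I : Type*}
    {pt : I × Bool → Y} (hpt : Function.Injective pt) :
    ∃ q, Bad q ∧ Eqv p q ∧ supp q ⊆ supp p ∧ ∀ i, ∃ b, pt (i, b) ∉ supp q := by
  obtain ⟨p', hp', e1, hs, hsupp⟩ := small hp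
  obtain ⟨τ, hg, hn⟩ := selector hp'.proj hs hpt
  obtain ⟨q, hq, e2, h1, h2⟩ := compress hp' hg hn
  exact ⟨q, hq, e1.trans e2, fun z hz h0 => hz (h2 z (hsupp z h0)),
    fun i => ⟨τ i, fun h => h (h1 i)⟩⟩

/-- Matchings of `G` inside `S`, as sets of ordered pairs. -/
def Mat (G : SimpleGraph Y) (S : Set Y) : Set (Set (Y × Y)) :=
  {M | (∀ e ∈ M, G.Adj e.1 e.2 ∧ e.1 ∈ S ∧ e.2 ∈ S) ∧
    ∀ e ∈ M, ∀ d ∈ M, e ≠ d → e.1 ≠ d.1 ∧ e.1 ≠ d.2 ∧ e.2 ≠ d.1 ∧ e.2 ≠ d.2}

theorem exists_mat (G : SimpleGraph Y) (S : Set Y) :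
    ∃ M ∈ Mat G S, ∀ u ∈ S, ∀ v ∈ S, G.Adj u v →
      ∃ e ∈ M, (u = e.1 ∨ u = e.2) ∨ (v = e.1 ∨ v = e.2) := by
  obtain ⟨M, hM⟩ := zorn_subset (Mat G S) (fun c hc hch => by
    refine ⟨⋃₀ c, ⟨?_, ?_⟩, fun s hs => Set.subset_sUnion_of_mem hs⟩
    · rintro e ⟨s, hs, he⟩
      exact (hc hs).1 e he
    · rintro e ⟨s, hs, he⟩ d ⟨t, ht, hd⟩
      rcases hch.total hs ht with h | h
      · exact (hc ht).2 e (h he) d hd
      · exact (hc hs).2 e he d (h hd))
  refine ⟨M, hM.prop, fun u hu v hv huv => ?_⟩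
  by_contra hno
  have hno' : ∀ e ∈ M, u ≠ e.1 ∧ u ≠ e.2 ∧ v ≠ e.1 ∧ v ≠ e.2 := fun e he =>
    ⟨fun h => hno ⟨e, he, Or.inl (Or.inl h)⟩, fun h => hno ⟨e, he, Or.inl (Or.inr h)⟩,
      fun h => hno ⟨e, he, Or.inr (Or.inl h)⟩, fun h => hno ⟨e, he, Or.inr (Or.inr h)⟩⟩
  have hin : insert (u, v) M ∈ Mat G S := by
    refine ⟨?_, ?_⟩
    · rintro e (rfl | he)
      · exact ⟨huv, hu, hv⟩
      · exact hM.prop.1 e he
    · rintro e (rfl | he) d (rfl | hd) hne
      · exact absurd rfl hne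
      · exact hno' d hd
      · obtain ⟨h1, h2, h3, h4⟩ := hno' e he
        exact ⟨h1.symm, h3.symm, h2.symm, h4.symm⟩
      · exact hM.prop.2 e he d hd hne
  exact (hno' (u, v) (hM.2 hin (Set.subset_insert _ _) (Set.mem_insert _ _))).1 rfl

theorem exists_indep [MetricSpace Y] (G : SimpleGraph Y) (k : ℕ) {p : L2 Y →L[ℂ] L2 Y}
    (hp : Bad p) (hk : ∀ u ∈ supp p, ∀ v ∈ supp p, G.Adj u v →
      (G.neighborSet u ∩ supp p).encard + (G.neighborSet v ∩ supp p).encard ≤ k) :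
    ∃ q : L2 Y →L[ℂ] L2 Y, Bad q ∧ Eqv p q ∧ ∀ u ∈ supp q, ∀ v ∈ supp q, ¬ G.Adj u v := by
  induction k generalizing p with
  | zero =>
    refine ⟨p, hp, Eqv.rfl' hp, fun u hu v hv huv => ?_⟩
    have h1 := hk u hu v hv huv
    have h2 : (G.neighborSet u ∩ supp p).encard = 0 :=
      le_antisymm (le_self_add.trans h1) zero_le
    exact (Set.encard_eq_zero.1 h2).subset (⟨huv, hv⟩ : v ∈ G.neighborSet u ∩ supp p)
  | succ k ih =>
    obtain ⟨M, hM, hmax⟩ := exists_mat G (supp p)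
    let pt : M × Bool → Y := fun v => if v.2 then v.1.1.1 else v.1.1.2
    have hpt : Function.Injective pt := by
      rintro ⟨e, c⟩ ⟨d, b⟩ h
      by_cases hed : e = d
      · subst hed
        have hne := (hM.1 e.1 e.2).1.ne
        cases c <;> cases b
        · rfl
        · exact absurd h.symm hne
        · exact absurd h hne
        · rfl
      · obtain ⟨h1, h2, h3, h4⟩ := hM.2 e.1 e.2 d.1 d.2 fun h => hed (Subtype.ext h)
        cases c <;> cases b
        · exact absurd h h4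
        · exact absurd h h3
        · exact absurd h h2
        · exact absurd h h1
    obtain ⟨q, hq, hpq, hsub, hmiss⟩ := miss_pairs hp hpt
    have hle : ∀ u, (G.neighborSet u ∩ supp q).encard ≤ (G.neighborSet u ∩ supp p).encard :=
      fun u => Set.encard_le_encard (Set.inter_subset_inter_right _ hsub)
    have hdrop : ∀ u ∈ supp q, ∀ e ∈ M, (u = e.1 ∨ u = e.2) →
        (G.neighborSet u ∩ supp q).encard + 1 ≤ (G.neighborSet u ∩ supp p).encard := by
      intro u hu e he hue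
      obtain ⟨h1, h2, h3⟩ := hM.1 e he
      have hw : ∃ w, w ∈ G.neighborSet u ∩ supp p ∧ w ∉ supp q := by
        obtain ⟨b, hb⟩ := hmiss ⟨e, he⟩
        rcases hue with rfl | rfl <;> cases b
        · exact ⟨e.2, ⟨h1, h3⟩, hb⟩
        · exact absurd hu hb
        · exact absurd hu hb
        · exact ⟨e.1, ⟨h1.symm, h2⟩, hb⟩
      obtain ⟨w, hw1, hw2⟩ := hw
      rw [← Set.encard_sdiff_singleton_add_one hw1]
      refine add_le_add_left (Set.encard_le_encard ?_) 1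
      rintro z ⟨hz1, hz2⟩
      refine ⟨⟨hz1, hsub hz2⟩, ?_⟩
      rintro rfl
      exact hw2 hz2
    refine (ih hq fun u hu v hv huv => ?_).imp fun r hr => ⟨hr.1, hpq.trans hr.2.1, hr.2.2⟩
    have h0 := hk u (hsub hu) v (hsub hv) huv
    have e0 : ((k + 1 : ℕ) : ℕ∞) = (k : ℕ∞) + 1 := by push_cast; rfl
    rw [e0] at h0
    refine (ENat.add_le_add_iff_right ENat.one_ne_top).1 (le_trans ?_ h0)
    obtain ⟨e, he, h | h⟩ := hmax u (hsub hu) v (hsub hv) huv
    · rw [add_right_comm]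
      exact add_le_add (hdrop u hu e he h) (hle v)
    · rw [add_assoc]
      exact add_le_add (hle u) (hdrop v hv e he h)

theorem indep_main [MetricSpace Y] (G : SimpleGraph Y) (D : ℕ)
    (hD : ∀ y, {z | G.Adj y z}.encard ≤ D) {p : L2 Y →L[ℂ] L2 Y} (h1 : p ∈ uniformRoe Y)
    (h2 : IsGhost p) (h3 : IsStarProjection p) :
    ∃ T : Set Y, (∀ u ∈ T, ∀ w ∈ T, ¬ G.Adj u w) ∧ ∃ v : L2 Y →L[ℂ] L2 Y, v ∈ uniformRoe Y ∧
      IsStarProjection (star v * v) ∧ p * (star v * v) = star v * v ∧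
      IsCompactOperator (p - star v * v : L2 Y →L[ℂ] L2 Y) ∧
      IsStarProjection (v * star v) ∧ IsGhost (v * star v) ∧
      ∀ y, y ∉ T → (v * star v) (delta y) = 0 := by
  by_cases h4 : IsCompactOperator p
  · refine ⟨∅, fun _ h => h.elim, 0, (roeAlg Y).zero_mem, by simp, by simp, by simpa using h4,
      by simp, fun ε hε => ⟨∅, fun x y _ => by simpa [entry] using hε⟩, by simp⟩
  obtain ⟨q, hq, ⟨v, a0, a1, a2, a3, a4⟩, hind⟩ := exists_indep G (D + D)
    ⟨h1, h3, h4, cols_of_ghost h3 h2⟩ fun u _ v _ _ => by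
    rw [Nat.cast_add]
    exact add_le_add ((Set.encard_le_encard Set.inter_subset_left).trans (hD u))
      ((Set.encard_le_encard Set.inter_subset_left).trans (hD v))
  subst a1
  refine ⟨supp (v * star v), hind, v, a0, ⟨?_, IsSelfAdjoint.star_mul_self v⟩, ?_, a4, hq.proj,
    ghost_of_cols hq.proj hq.cols, fun y hy => not_not.1 hy⟩
  · show star v * v * (star v * v) = star v * v
    rw [mul_assoc, ← mul_assoc v, a3]
  · have := congrArg star a2
    rw [star_mul, h3.isSelfAdjoint.star_eq] at this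
    rw [← mul_assoc, this]

theorem restrict [MetricSpace Y] {p v : L2 Y →L[ℂ] L2 Y} {T : Set Y}
    (h4 : ¬ IsCompactOperator p) (a0 : v ∈ uniformRoe Y) (a1 : IsStarProjection (star v * v))
    (a2 : IsCompactOperator (p - star v * v : L2 Y →L[ℂ] L2 Y))
    (a3 : IsStarProjection (v * star v)) (a4 : IsGhost (v * star v))
    (a5 : ∀ y, y ∉ T → (v * star v) (delta y) = 0) : ∃ q : L2 T →L[ℂ] L2 T, Bad q := by
  have hb : Bad (v * star v) := by
    refine ⟨Subalgebra.mul_mem (roeAlg Y) a0 ((roeStar Y).star_mem' a0), a3, fun hc => h4 ?_,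
      cols_of_ghost a3 a4⟩
    have e1 : star v * v * (star v * v) = star v * v := a1.isIdempotentElem
    have e2 : p = (p - star v * v) + star v * (v * star v) * v := by
      rw [← mul_assoc, mul_assoc (star v * v), e1, sub_add_cancel]
    rw [e2]
    exact a2.add ((hc.comp_clm v).clm_comp (star v))
  exact ⟨_, hb.transport (A := T) Subtype.val_injective
    (fun x hx => ⟨⟨x, not_not.1 fun h => hx (a5 x h)⟩, rfl⟩) fun R => ⟨R, fun _ _ h => h⟩⟩

end Pool.Agent.P.MP_7884fa_an.Ind
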