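import Pool.Agent.P.MP_7884fa_an.Steps

/-! Transport along a coarse embedding. -/

namespace Pool.Agent.P.MP_7884fa_an

open scoped InnerProductSpace NNReal
open InnerProductSpace ContinuousLinearMap

theorem entry_conj {A B : Type*} {g : A → B} (hg : Function.Injective g)
    (T : L2 B →L[ℂ] L2 B) (x y : A) :
    entry (pull hg ∘L T ∘L push hg) x y = entry T (g x) (g y) := by
  rw [entry_eq, entry_eq, comp_apply, comp_apply, push_delta, pull_apply]

theorem Bad.transport {A B : Type*} [MetricSpace A] [MetricSpace B] {q : L2 B →L[ℂ] L2 B}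
    (hq : Bad q) {g : A → B} (hg : Function.Injective g) (hs : supp q ⊆ Set.range g)
    (hd : ∀ R : ℝ, ∃ R' : ℝ, ∀ x y, dist (g x) (g y) ≤ R → dist x y ≤ R') :
    Bad (pull hg ∘L q ∘L push hg) := by
  have e1 : q ∘L Pool.Agent.P.MP_7884fa_an.proj hg = q := by
    apply clm_ext
    intro y
    by_cases hy : y ∈ Set.range g
    · obtain ⟨a, rfl⟩ := hy
      rw [comp_apply, proj_delta_mem]
    · rw [comp_apply, proj_delta_notMem hg hy, map_zero]
      by_contra h
      exact hy (hs (Ne.symm h))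
  have sq : adjoint q = q := hq.proj.isSelfAdjoint
  have e2 : Pool.Agent.P.MP_7884fa_an.proj hg ∘L q = q := by
    have := congrArg adjoint e1
    have sp : adjoint (Pool.Agent.P.MP_7884fa_an.proj hg) = Pool.Agent.P.MP_7884fa_an.proj hg :=
      (isStarProjection_proj hg).isSelfAdjoint
    rwa [adjoint_comp, sq, sp] at this
  refine ⟨?_, ⟨?_, ?_⟩, ?_, ?_⟩
  · have hc : Continuous fun T : L2 B →L[ℂ] L2 B => pull hg ∘L T ∘L push hg :=
      continuous_const.clm_comp (continuous_id.clm_comp continuous_const)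
    refine map_mem_closure (f := fun T : L2 B →L[ℂ] L2 B => pull hg ∘L T ∘L push hg) hc hq.mem ?_
    rintro T ⟨R, hR⟩
    obtain ⟨R', hR'⟩ := hd R
    exact ⟨R', fun x y h => hR' x y (hR _ _ (by rwa [entry_conj] at h))⟩
  · show (pull hg ∘L q ∘L push hg) ∘L (pull hg ∘L q ∘L push hg) = _
    have qq : q ∘L q = q := hq.proj.isIdempotentElem
    calc _ = pull hg ∘L ((q ∘L Pool.Agent.P.MP_7884fa_an.proj hg) ∘L q) ∘L push hg := rfl
      _ = _ := by rw [e1, qq]
  · show adjoint (pull hg ∘L q ∘L push hg) = _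
    rw [adjoint_comp, adjoint_comp, sq, pull, adjoint_adjoint]; rfl
  · intro hc
    apply hq.noncpt
    have h1 := (hc.comp_clm (pull hg)).clm_comp (push hg)
    have e3 : Pool.Agent.P.MP_7884fa_an.proj hg ∘L (q ∘L Pool.Agent.P.MP_7884fa_an.proj hg) = q := by
      rw [e1, e2]
    rw [← e3]
    exact h1
  · intro ε hε
    refine ((hq.cols ε hε).preimage hg.injOn).subset fun x hx => ?_
    have h1 : ε ≤ ‖pull hg (q (push hg (delta x)))‖ := hx
    rw [push_delta] at h1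
    exact h1.trans (norm_pull_apply_le hg _)

theorem IsCoarseEmbedding.lower {Y X : Type*} [MetricSpace Y] [MetricSpace X] {f : Y → X}
    (hf : IsCoarseEmbedding f) (R : ℝ) :
    ∃ t : ℝ, ∀ y y', t ≤ dist y y' → R ≤ dist (f y) (f y') := by
  obtain ⟨ρ₁, ρ₂, -, -, h3, h4⟩ := hf
  obtain ⟨t, ht⟩ := Filter.eventually_atTop.mp (h3.eventually_ge_atTop R.toNNReal)
  refine ⟨t, fun y y' h => ?_⟩
  have h5 := (ht (nndist y y') (by exact_mod_cast h)).trans (h4 y y').1
  exact (Real.le_coe_toNNReal R).trans (by exact_mod_cast h5)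

theorem IsCoarseEmbedding.upper {Y X : Type*} [MetricSpace Y] [MetricSpace X] {f : Y → X}
    (hf : IsCoarseEmbedding f) (R : ℝ) :
    ∃ R' : ℝ, ∀ y y', dist y y' ≤ R → dist (f y) (f y') ≤ R' := by
  obtain ⟨ρ₁, ρ₂, -, h2, -, h4⟩ := hf
  refine ⟨ρ₂ R.toNNReal, fun y y' h => ?_⟩
  have h5 : nndist y y' ≤ R.toNNReal := by
    rw [← NNReal.coe_le_coe]; exact h.trans (Real.le_coe_toNNReal R)
  exact_mod_cast (h4 y y').2.trans (h2 h5)

theorem IsSparse.image {Y X : Type*} [MetricSpace Y] [MetricSpace X] {f : Y → X}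
    (hl : ∀ R : ℝ, ∃ t : ℝ, ∀ y y', t ≤ dist y y' → R ≤ dist (f y) (f y'))
    {S T : Set Y} (hS : IsSparse S) (hTS : T ⊆ S) (hT : T.Infinite) (hinj : Set.InjOn f T) :
    IsSparse (f '' T) := by
  obtain ⟨P, h1, h2, h3, h4⟩ := hS
  have hJ : {n | (P n ∩ T).Nonempty}.Infinite := by
    intro hfin
    apply hT
    refine (hfin.biUnion fun n _ => (h1 n).1).subset fun y hy => ?_
    have := hTS hy
    rw [← h3] at this
    obtain ⟨n, hn⟩ := Set.mem_iUnion.mp this
    exact Set.mem_biUnion (show n ∈ {n | (P n ∩ T).Nonempty} from ⟨y, hn, hy⟩) hn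
  let φ := Nat.nth fun n => (P n ∩ T).Nonempty
  have hφ : StrictMono φ := Nat.nth_strictMono hJ
  refine ⟨fun n => f '' (P (φ n) ∩ T), fun n => ⟨((h1 _).1.inter_of_left _).image _,
    (Nat.nth_mem_of_infinite hJ n).image _⟩, ?_, ?_, ?_⟩
  · intro n m hnm
    rw [Set.disjoint_left]
    rintro _ ⟨a, ha, rfl⟩ ⟨b, hb, hab⟩
    have := hinj hb.2 ha.2 hab
    subst this
    exact Set.disjoint_left.mp (h2 _ _ (hφ.injective.ne hnm)) ha.1 hb.1
  · ext x
    simp only [Set.mem_iUnion, Set.mem_image]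
    constructor
    · rintro ⟨n, y, hy, rfl⟩; exact ⟨y, hy.2, rfl⟩
    · rintro ⟨y, hy, rfl⟩
      have := hTS hy
      rw [← h3] at this
      obtain ⟨n, hn⟩ := Set.mem_iUnion.mp this
      have hr : n ∈ Set.range φ := by
        rw [Nat.range_nth_of_infinite hJ]; exact ⟨y, hn, hy⟩
      obtain ⟨k, rfl⟩ := hr
      exact ⟨k, y, ⟨hn, hy⟩, rfl⟩
  · intro R
    obtain ⟨t, ht⟩ := hl R
    obtain ⟨N, hN⟩ := h4 t
    refine ⟨N, fun n m hnm hle => ?_⟩
    rintro _ ⟨a, ha, rfl⟩ _ ⟨b, hb, rfl⟩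
    refine ht a b (hN _ _ (hφ.injective.ne hnm) ?_ a ha.1 b hb.1)
    have := hφ.le_apply (x := n)
    have := hφ.le_apply (x := m)
    omega

theorem main_aux {X Y : Type*} [MetricSpace X] [MetricSpace Y] (hY : ULF Y) (f : Y → X)
    (hl : ∀ R : ℝ, ∃ t : ℝ, ∀ y y', t ≤ dist y y' → R ≤ dist (f y) (f y'))
    (hu : ∀ R : ℝ, ∃ R' : ℝ, ∀ y y', dist y y' ≤ R → dist (f y) (f y') ≤ R')
    (h : OnlyCompactGhostProj X) : OnlyCompactGhostProj Y := by
  intro S hS p hp hg hpr
  by_contra hnc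
  have hbad : Bad p := ⟨hp, hpr, hnc, cols_of_ghost hpr hg⟩
  obtain ⟨t, ht⟩ := hl 1
  obtain ⟨N, hN⟩ := hY (max t 1) (by positivity)
  have hfib : ∀ x, (supp p ∩ (fun y : S => f y) ⁻¹' {x}).encard ≤ (N + 1 : ℕ) := by
    intro x
    rcases (supp p ∩ (fun y : S => f y) ⁻¹' {x}).eq_empty_or_nonempty with h0 | ⟨y₀, hy₀⟩
    · rw [h0]; simp
    · rw [← Subtype.val_injective.encard_image]
      refine (Set.encard_le_encard (t := Metric.ball (y₀ : Y) (max t 1)) ?_).trans
        ((hN y₀).trans (by exact_mod_cast Nat.le_succ N))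
      rintro _ ⟨y, hy, rfl⟩
      by_contra hlt
      rw [Metric.mem_ball, not_lt] at hlt
      have h1 := ht _ _ ((le_max_left _ _).trans hlt)
      have h2 : f y = x := hy.2
      have h3 : f y₀ = x := hy₀.2
      rw [h2, h3, dist_self] at h1
      linarith
  obtain ⟨q, hq, hinj⟩ := hbad.exists_injOn _ N hfib
  set T : Set Y := Subtype.val '' supp q with hT
  have hTS : T ⊆ S := by rintro _ ⟨y, -, rfl⟩; exact y.2
  have hTinf : T.Infinite := by
    refine Set.Infinite.image Subtype.val_injective.injOn fun hfin => ?_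
    exact hq.noncpt (compact_of_finite_support q hfin)
  have hTinj : Set.InjOn f T := by
    rintro _ ⟨a, ha, rfl⟩ _ ⟨b, hb, rfl⟩ hab
    rw [hinj ha hb hab]
  have hsp := hS.image hl hTS hTinf hTinj
  have hch : ∀ x : f '' T, ∃ y : S, y ∈ supp q ∧ f y = x := by
    rintro ⟨_, _, ⟨y, hy, rfl⟩, rfl⟩
    exact ⟨y, hy, rfl⟩
  choose g hg1 hg2 using hch
  have hginj : Function.Injective g := fun a b hab => Subtype.ext (by rw [← hg2, ← hg2, hab])
  have hbad' := hq.transport hginj (fun y hy =>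
      ⟨⟨f y, y, ⟨y, hy, rfl⟩, rfl⟩, hinj (hg1 _) hy (hg2 _)⟩) (fun R => by
    obtain ⟨R', hR'⟩ := hu R
    refine ⟨R', fun x y hxy => ?_⟩
    rw [Subtype.dist_eq, ← hg2, ← hg2]
    exact hR' _ _ hxy)
  exact hbad'.noncpt (h _ hsp _ hbad'.mem (ghost_of_cols hbad'.proj hbad'.cols) hbad'.proj)

theorem main {X Y : Type*} [MetricSpace X] [MetricSpace Y] (hY : ULF Y) (f : Y → X)
    (hf : IsCoarseEmbedding f) (h : OnlyCompactGhostProj X) : OnlyCompactGhostProj Y :=
  main_aux hY f hf.lower hf.upper h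

theorem main_equiv {X Y : Type*} [MetricSpace X] [MetricSpace Y] (hX : ULF X) (hY : ULF Y)
    (f : Y → X) (hf : IsCoarseEmbedding f) (hC : ∃ C : ℝ, ∀ x, ∃ y, dist x (f y) ≤ C) :
    OnlyCompactGhostProj X ↔ OnlyCompactGhostProj Y := by
  refine ⟨main hY f hf, fun h => ?_⟩
  obtain ⟨C, hC⟩ := hC
  have hch : ∀ x, ∃ y, dist x (f y) < C + 1 := by
    intro x
    obtain ⟨y, hy⟩ := hC x
    exact ⟨y, by linarith⟩
  choose g hg using hch
  refine main_aux hX g (fun R => ?_) (fun R => ?_) h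
  · obtain ⟨R', hR'⟩ := hf.upper R
    refine ⟨R' + 2 * (C + 1), fun x x' hx => ?_⟩
    by_contra hlt
    have h1 := hR' _ _ (not_le.mp hlt).le
    have h2 := dist_triangle4 x (f (g x)) (f (g x')) x'
    have h3 := hg x
    have h4 := hg x'
    rw [dist_comm] at h4
    linarith
  · obtain ⟨t, ht⟩ := hf.lower (R + 2 * (C + 1))
    refine ⟨t, fun x x' hx => ?_⟩
    by_contra hlt
    have h1 := ht _ _ (not_le.mp hlt).le
    have h2 := dist_triangle4 (f (g x)) x x' (f (g x'))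
    have h3 := hg x
    have h4 := hg x'
    rw [dist_comm] at h3
    linarith

end Pool.Agent.P.MP_7884fa_an
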