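import Pool.Agent.P.MP_7884fa_an.Main

/-! Transport along uniformly finite-to-one coarse maps. -/

namespace Pool.Agent.P.MP_7884fa_an

open scoped InnerProductSpace NNReal
open InnerProductSpace ContinuousLinearMap

variable {X : Type*}

/-- The uniform Roe algebra as a star subalgebra. -/
noncomputable def roeStar (X : Type*) [MetricSpace X] : StarSubalgebra ℂ (L2 X →L[ℂ] L2 X) where
  toSubalgebra := roeAlg X
  star_mem' := by
    intro T hT
    refine map_mem_closure (f := fun T : L2 X →L[ℂ] L2 X => star T) continuous_star hT ?_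
    rintro T ⟨R, hR⟩
    refine ⟨R, fun x y h => ?_⟩
    rw [dist_comm]
    refine hR y x fun h0 => h ?_
    show ⟪delta x, adjoint T (delta y)⟫_ℂ = 0
    rw [adjoint_inner_right, ← inner_conj_symm]
    have : ⟪delta y, T (delta x)⟫_ℂ = 0 := h0
    rw [this, map_zero]

theorem near_proj_alg {A : Type*} [CStarAlgebra A] (s : StarSubalgebra ℂ A)
    (hs : IsClosed (s : Set A)) {b : A} (hb : IsSelfAdjoint b)
    (hm : b ∈ s) (hn : ‖b - b * b‖ ≤ 1 / 8) :
    ∃ h : A, h ∈ s ∧ IsStarProjection (h * b) ∧ ‖h * b - b‖ ≤ 1 / 4 := by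
  let g : ℝ → ℝ := fun t => max 0 (min 1 (2 * t - 1 / 2))
  let k : ℝ → ℝ := fun t => g t / max t (1 / 4)
  have hg : Continuous g := by fun_prop
  have hk : Continuous k := hg.div (by fun_prop) fun t =>
    (lt_of_lt_of_le (by norm_num) (le_max_right t (1 / 4))).ne'
  have hsp : ∀ t ∈ spectrum ℝ b, |t - t * t| ≤ 1 / 8 := by
    intro t ht
    have h1 := norm_apply_le_norm_cfc (fun t : ℝ => t - t * t) b ht
    rw [cfc_sub _ _ b, cfc_mul _ _ b, cfc_id' ℝ b] at h1
    exact h1.trans hn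
  have hcase : ∀ t ∈ spectrum ℝ b, (g t = 0 ∧ |t| ≤ 1 / 4) ∨ (g t = 1 ∧ |1 - t| ≤ 1 / 4) := by
    intro t ht
    obtain ⟨h1, h2⟩ := abs_le.1 (hsp t ht)
    by_cases h : t ≤ 1 / 2
    · have h3 : t ≤ 1 / 4 := by nlinarith
      have h4 : -(1 / 4) ≤ t := by nlinarith
      refine Or.inl ⟨max_eq_left ((min_le_right _ _).trans (by linarith)), abs_le.2 ⟨h4, h3⟩⟩
    · have h3 : 3 / 4 ≤ t := by nlinarith
      have h4 : t ≤ 5 / 4 := by nlinarith
      refine Or.inr ⟨?_, abs_le.2 ⟨by linarith, by linarith⟩⟩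
      show max 0 (min 1 (2 * t - 1 / 2)) = 1
      rw [min_eq_left (by linarith), max_eq_right zero_le_one]
  have e : cfc k b * b = cfc g b := by
    have h1 := cfc_mul k (fun t : ℝ => t) b
    rw [cfc_id' ℝ b] at h1
    rw [← h1]
    congr 1
    funext t
    by_cases h : t ≤ 1 / 4
    · have : g t = 0 := max_eq_left ((min_le_right _ _).trans (by linarith))
      simp [k, this]
    · have h2 : max t (1 / 4) = t := max_eq_left (by linarith)
      have h3 : t ≠ 0 := by intro h0; rw [h0] at h; norm_num at h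
      simp only [k, h2]
      field_simp
  refine ⟨cfc k b, ?_, ?_, ?_⟩
  · exact cfc_mem (𝕜' := ℂ) (s := s) k hm
  · rw [e]
    refine ⟨?_, cfc_predicate g b⟩
    show cfc g b * cfc g b = cfc g b
    rw [← cfc_mul g g b]
    refine cfc_congr fun t ht => ?_
    rcases hcase t ht with h | h <;> simp [h.1]
  · rw [e]
    have h1 := cfc_sub g (fun t : ℝ => t) b
    rw [cfc_id' ℝ b] at h1
    rw [← h1]
    refine norm_cfc_le (by norm_num) fun t ht => ?_
    rcases hcase t ht with h | h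
    · simpa [h.1] using h.2
    · simpa [h.1] using h.2

theorem near_proj [MetricSpace X] {b : L2 X →L[ℂ] L2 X} (hb : IsSelfAdjoint b)
    (hm : b ∈ roeAlg X) (hn : ‖b - b * b‖ ≤ 1 / 8) :
    ∃ h : L2 X →L[ℂ] L2 X, h ∈ roeAlg X ∧ IsStarProjection (h * b) ∧ ‖h * b - b‖ ≤ 1 / 4 :=
  near_proj_alg (roeStar X) isClosed_roeAlg hb hm hn

/-- The coordinate projection of a subset. -/
noncomputable def chi (A : Set X) : L2 X →L[ℂ] L2 X :=
  Pool.Agent.P.MP_7884fa_an.proj (Subtype.val_injective (p := (· ∈ A)))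

theorem chi_proj (A : Set X) : IsStarProjection (chi A) := isStarProjection_proj _

theorem chi_mem {A : Set X} {z : X} (h : z ∈ A) : chi A (delta z) = delta z :=
  proj_delta_mem (Subtype.val_injective (p := (· ∈ A))) ⟨z, h⟩

theorem chi_notMem {A : Set X} {z : X} (h : z ∉ A) : chi A (delta z) = 0 :=
  proj_delta_notMem _ (by simpa using h)

theorem chi_fix {A : Set X} {ξ : L2 X} (h : ∀ x, x ∉ A → ξ x = 0) : chi A ξ = ξ := by
  ext x
  rw [← inner_delta, ← inner_proj (chi_proj A)]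
  by_cases hx : x ∈ A
  · rw [chi_mem hx, inner_delta]
  · rw [chi_notMem hx, inner_zero_left, h x hx]

theorem offdiag [MetricSpace X] {p : L2 X →L[ℂ] L2 X} (hp : p ∈ roeAlg X) :
    ∃ R : ℝ, ∀ A : Set X, (∀ x ∈ A, ∀ y, y ∉ A → R < dist x y) →
      ‖(1 - chi A) * p * chi A‖ ≤ 1 / 8 := by
  obtain ⟨T, ⟨R, hR⟩, hT⟩ := Metric.mem_closure_iff.1 hp (1 / 8) (by norm_num)
  refine ⟨R, fun A hA => ?_⟩
  have h0 : (1 - chi A) * T * chi A = 0 := by
    apply clm_ext
    intro y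
    show (1 - chi A) (T (chi A (delta y))) = 0
    by_cases hy : y ∈ A
    · rw [chi_mem hy]
      show T (delta y) - chi A (T (delta y)) = 0
      rw [chi_fix, sub_self]
      intro x hx
      by_contra h
      have h1 := hR x y (by rwa [entry_eq])
      have h2 := hA y hy x hx
      rw [dist_comm] at h2
      linarith
    · rw [chi_notMem hy, map_zero, map_zero]
  have h1 : (1 - chi A) * p * chi A = (1 - chi A) * (p - T) * chi A := by
    rw [mul_sub _ p T, sub_mul _ _ (chi A), h0, sub_zero]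
  rw [h1]
  rw [dist_eq_norm] at hT
  calc _ ≤ ‖1 - chi A‖ * ‖p - T‖ * ‖chi A‖ :=
        (norm_mul_le _ _).trans (by gcongr; exact norm_mul_le _ _)
    _ ≤ 1 * (1 / 8) * 1 := by
        gcongr
        · exact (chi_proj A).one_sub.norm_le
        · exact (chi_proj A).norm_le
    _ = 1 / 8 := by norm_num

theorem Bad.cut [MetricSpace X] {p : L2 X →L[ℂ] L2 X} (hp : Bad p) (A : Set X)
    (hA : ‖(1 - chi A) * p * chi A‖ ≤ 1 / 8) :
    ∃ q : L2 X →L[ℂ] L2 X, ‖p * chi A - q‖ ≤ 3 / 8 ∧ supp q ⊆ supp p ∩ A ∧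
      (¬ IsCompactOperator q → Bad q) := by
  set e := chi A with he
  have hes : IsStarProjection e := chi_proj A
  have hem : e ∈ roeAlg X := proj_mem _
  have ee : e * e = e := hes.isIdempotentElem
  have pp : p * p = p := hp.proj.isIdempotentElem
  have hb : IsSelfAdjoint (e * p * e) := by
    show star (e * p * e) = _
    rw [star_mul, star_mul, hes.isSelfAdjoint.star_eq, hp.proj.isSelfAdjoint.star_eq, mul_assoc]
  have hbm : e * p * e ∈ roeAlg X := Subalgebra.mul_mem _ (Subalgebra.mul_mem _ hem hp.mem) hem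
  have h1 : e * p * e - e * p * e * (e * p * e) = e * p * ((1 - e) * p * e) := by
    calc _ = e * (p * p) * e - e * p * (e * e) * p * e := by rw [pp]; noncomm_ring
      _ = _ := by rw [ee]; noncomm_ring
  obtain ⟨h, hm, hq, hn⟩ := near_proj hb hbm (by
    rw [h1]
    calc _ ≤ ‖e‖ * ‖p‖ * ‖(1 - e) * p * e‖ :=
          (norm_mul_le _ _).trans (by gcongr; exact norm_mul_le _ _)
      _ ≤ 1 * 1 * (1 / 8) := by
          gcongr
          · exact hes.norm_le
          · exact hp.proj.norm_le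
      _ = 1 / 8 := by norm_num)
  have hcol : ∀ z, ‖(h * (e * p * e)) (delta z)‖ ≤ ‖h * e‖ * ‖p (e (delta z))‖ := fun z =>
    le_opNorm (h * e) (p (e (delta z)))
  have hcol' : ∀ z, ‖p (e (delta z))‖ ≤ ‖p (delta z)‖ := by
    intro z
    by_cases hz : z ∈ A
    · rw [he, chi_mem hz]
    · rw [he, chi_notMem hz]; simp
  refine ⟨h * (e * p * e), ?_, fun z hz => ?_, fun hc => ⟨Subalgebra.mul_mem _ hm hbm, hq, hc, ?_⟩⟩
  · have : p * e - h * (e * p * e) = (1 - e) * p * e - (h * (e * p * e) - e * p * e) := by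
      noncomm_ring
    rw [this]
    exact (norm_sub_le _ _).trans (by linarith)
  · have h2 : p (e (delta z)) ≠ 0 := by
      intro h0
      have := hcol z
      rw [h0, norm_zero, mul_zero] at this
      exact hz (norm_le_zero_iff.1 this)
    by_cases hzA : z ∈ A
    · rw [he, chi_mem hzA] at h2
      exact ⟨h2, hzA⟩
    · rw [he, chi_notMem hzA, map_zero] at h2
      exact absurd rfl h2
  · intro ε hε
    set C := ‖h * e‖ + 1 with hC
    have hC0 : 0 < C := by positivity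
    refine (hp.cols (ε / C) (div_pos hε hC0)).subset fun z hz => ?_
    have h4 : ε ≤ ‖(h * (e * p * e)) (delta z)‖ := hz
    have h5 := hcol z
    have h6 := hcol' z
    show ε / C ≤ ‖p (delta z)‖
    rw [div_le_iff₀ hC0]
    nlinarith [norm_nonneg (p (delta z)), norm_nonneg (h * e), norm_nonneg (p (e (delta z)))]

theorem compact_of_near {p K : L2 X →L[ℂ] L2 X} (hp : IsStarProjection p)
    (hK : IsCompactOperator K) (h : ‖p - K‖ < 1) : IsCompactOperator p := by
  have pp : p * p = p := hp.isIdempotentElem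
  have hc : ‖(p - K) * p‖ < 1 :=
    calc _ ≤ ‖p - K‖ * ‖p‖ := norm_mul_le _ _
      _ ≤ ‖p - K‖ * 1 := by gcongr; exact hp.norm_le
      _ < 1 := by rwa [mul_one]
  set W := ∑' k : ℕ, ((p - K) * p) ^ k with hW
  have h1 : W * (1 - (p - K) * p) = 1 := geom_series_mul_neg _ hc
  have h2 : (1 - (p - K) * p) * p = K * p := by
    calc _ = p - (p * (p * p) - K * (p * p)) := by noncomm_ring
      _ = _ := by rw [pp, pp]; noncomm_ring
  have h3 : p = W * (K * p) := by rw [← h2, ← mul_assoc, h1, one_mul]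
  rw [h3]
  exact (hK.comp_clm p).clm_comp W

theorem Bad.split [MetricSpace X] {p : L2 X →L[ℂ] L2 X} (hp : Bad p) (A₀ A₁ A₂ : Set X)
    (h0 : A₀.Finite) (hsum : chi A₀ + chi A₁ + chi A₂ = 1)
    (h1 : ‖(1 - chi A₁) * p * chi A₁‖ ≤ 1 / 8) (h2 : ‖(1 - chi A₂) * p * chi A₂‖ ≤ 1 / 8) :
    ∃ q, Bad q ∧ supp q ⊆ supp p ∧ (supp q ⊆ A₁ ∨ supp q ⊆ A₂) := by
  obtain ⟨q₁, a1, a2, a3⟩ := hp.cut A₁ h1
  obtain ⟨q₂, b1, b2, b3⟩ := hp.cut A₂ h2
  by_cases c1 : IsCompactOperator q₁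
  · by_cases c2 : IsCompactOperator q₂
    · exfalso
      apply hp.noncpt
      have c0 : IsCompactOperator (p * chi A₀) := by
        refine compact_of_finite_support _ (h0.subset fun z hz => ?_)
        by_contra h
        apply hz
        show p (chi A₀ (delta z)) = 0
        rw [chi_notMem h, map_zero]
      refine compact_of_near hp.proj (K := p * chi A₀ + q₁ + q₂) ((c0.add c1).add c2) ?_
      have : p - (p * chi A₀ + q₁ + q₂) = (p * chi A₁ - q₁) + (p * chi A₂ - q₂) := by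
        calc _ = p * (chi A₀ + chi A₁ + chi A₂) - (p * chi A₀ + q₁ + q₂) := by rw [hsum, mul_one]
          _ = _ := by noncomm_ring
      rw [this]
      exact (norm_add_le _ _).trans_lt (by linarith)
    · exact ⟨q₂, b3 c2, fun z hz => (b2 hz).1, Or.inr fun z hz => (b2 hz).2⟩
  · exact ⟨q₁, a3 c1, fun z hz => (a2 hz).1, Or.inl fun z hz => (a2 hz).2⟩

theorem isSparse_of_blocks [MetricSpace X] (Q : ℕ → Set X) (h1 : ∀ n, (Q n).Finite)
    (h2 : ∀ n m, n ≠ m → Disjoint (Q n) (Q m)) (h3 : (⋃ n, Q n).Infinite)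
    (h4 : ∀ R : ℝ, ∃ N : ℕ, ∀ n m, n ≠ m → N ≤ n + m → ∀ x ∈ Q n, ∀ y ∈ Q m, R ≤ dist x y) :
    IsSparse (⋃ n, Q n) := by
  have hJ : {n | (Q n).Nonempty}.Infinite := by
    intro hfin
    apply h3
    refine (hfin.biUnion fun n _ => h1 n).subset fun y hy => ?_
    obtain ⟨n, hn⟩ := Set.mem_iUnion.mp hy
    exact Set.mem_biUnion (show n ∈ {n | (Q n).Nonempty} from ⟨y, hn⟩) hn
  let φ := Nat.nth fun n => (Q n).Nonempty
  have hφ : StrictMono φ := Nat.nth_strictMono hJ
  refine ⟨fun n => Q (φ n), fun n => ⟨h1 _, Nat.nth_mem_of_infinite hJ n⟩,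
    fun n m hnm => h2 _ _ (hφ.injective.ne hnm), ?_, fun R => ?_⟩
  · ext x
    simp only [Set.mem_iUnion]
    refine ⟨fun ⟨n, hn⟩ => ⟨_, hn⟩, fun ⟨n, hn⟩ => ?_⟩
    have hr : n ∈ Set.range φ := by
      rw [Nat.range_nth_of_infinite hJ]; exact ⟨x, hn⟩
    obtain ⟨k, rfl⟩ := hr
    exact ⟨k, hn⟩
  · obtain ⟨N, hN⟩ := h4 R
    refine ⟨N, fun n m hnm hle => hN _ _ (hφ.injective.ne hnm) ?_⟩
    have := hφ.le_apply (x := n)
    have := hφ.le_apply (x := m)
    omega

/-- Levels adapted to a finite-to-one map. -/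
theorem exists_lev {S : Type*} [MetricSpace X] (hX : ∀ (x : X) (r : ℝ), (Metric.ball x r).Finite)
    (f : S → X) (hf : ∀ x, (f ⁻¹' {x}).Finite) (idx : S → ℕ) (hidx : ∀ n, {y | idx y ≤ n}.Finite) :
    ∃ lv : ℕ → ℕ, (∀ k, {y | lv (idx y) = k}.Finite) ∧
      ∀ a b, lv (idx a) + 2 ≤ lv (idx b) → (lv (idx b) : ℝ) - 2 ≤ dist (f a) (f b) := by
  have step : ∀ M k : ℕ, ∃ M' : ℕ, M < M' ∧ ∀ a b, idx a ≤ M → M' ≤ idx b →
      (k : ℝ) ≤ dist (f a) (f b) := by
    intro M k
    have hfin : (⋃ a ∈ {y | idx y ≤ M}, ⋃ x ∈ Metric.ball (f a) k, f ⁻¹' {x}).Finite :=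
      (hidx M).biUnion fun a _ => (hX _ _).biUnion fun x _ => hf x
    obtain ⟨B, hB⟩ := (hfin.image idx).bddAbove
    refine ⟨max M B + 1, by omega, fun a b ha hb => ?_⟩
    by_contra hlt
    have : idx b ≤ B := hB ⟨b, Set.mem_biUnion (show a ∈ {y | idx y ≤ M} from ha)
      (Set.mem_biUnion (show f b ∈ Metric.ball (f a) k from by
        rw [Metric.mem_ball, dist_comm]; exact not_le.1 hlt) rfl), rfl⟩
    omega
  choose nx h1 h2 using step
  let N : ℕ → ℕ := fun k => Nat.rec 0 (fun k M => nx M k) k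
  have hN : ∀ k, N (k + 1) = nx (N k) k := fun _ => rfl
  have hmono : StrictMono N := strictMono_nat_of_lt_succ fun k => by rw [hN]; exact h1 _ _
  have hex : ∀ n, ∃ k, n ≤ N k := fun n => ⟨n, hmono.le_apply⟩
  have hlv : ∀ n, ∃ l, n ≤ N l ∧ ∀ k, k < l → ¬ n ≤ N k := fun n =>
    ⟨sInf {k | n ≤ N k}, Nat.sInf_mem (s := {k | n ≤ N k}) (hex n),
      fun k hk => Nat.notMem_of_lt_sInf (s := {k | n ≤ N k}) hk⟩
  choose lv l1 l2 using hlv
  refine ⟨lv, fun k => (hidx (N k)).subset fun y hy => ?_, fun a b hab => ?_⟩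
  · have h3 := l1 (idx y)
    have h4 : lv (idx y) = k := hy
    rwa [h4] at h3
  · obtain ⟨k, hk⟩ : ∃ k, lv (idx b) = k + 2 := ⟨lv (idx b) - 2, by omega⟩
    have h3 : ¬ idx b ≤ N (k + 1) := l2 (idx b) (k + 1) (by omega)
    have h6 : lv (idx a) ≤ k := by omega
    have h4 : idx a ≤ N k := (l1 _).trans (hmono.monotone h6)
    have h5 := h2 (N k) k a b h4 (by rw [← hN]; omega)
    rw [hk]
    push_cast
    linarith

theorem main_regular {X Y : Type*} [MetricSpace X] [MetricSpace Y]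
    (hX : ∀ (x : X) (r : ℝ), (Metric.ball x r).Finite) (f : Y → X)
    (hu : ∀ R : ℝ, ∃ R' : ℝ, ∀ y y', dist y y' ≤ R → dist (f y) (f y') ≤ R')
    (N : ℕ) (hN : ∀ x, (f ⁻¹' {x}).encard ≤ N)
    (h : OnlyCompactGhostProj X) : OnlyCompactGhostProj Y := by
  intro S hS p hp hg hpr
  by_contra hnc
  have hbad : Bad p := ⟨hp, hpr, hnc, cols_of_ghost hpr hg⟩
  have hfib0 : ∀ x, ((fun y : S => f y) ⁻¹' {x}).encard ≤ N := by
    intro x
    rw [← Subtype.val_injective.encard_image]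
    refine (Set.encard_le_encard ?_).trans (hN x)
    rintro _ ⟨y, hy, rfl⟩
    exact hy
  obtain ⟨q₀, hq₀, hinj₀⟩ := hbad.exists_injOn (fun y : S => f y) N fun x =>
    (Set.encard_le_encard Set.inter_subset_right).trans
      ((hfib0 x).trans (by exact_mod_cast Nat.le_succ N))
  obtain ⟨P, h1, h2, h3, h4⟩ := hS
  have hch : ∀ y : S, ∃ n, y.1 ∈ P n := fun y => Set.mem_iUnion.1 (h3 ▸ y.2)
  choose idx hidx using hch
  have hfin : ∀ n, {y : S | idx y ≤ n}.Finite := by
    intro n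
    refine (((Set.finite_Iic n).biUnion fun m _ => (h1 m).1).preimage
      Subtype.val_injective.injOn).subset fun y hy => ?_
    exact Set.mem_biUnion (show idx y ∈ Set.Iic n from hy) (hidx y)
  obtain ⟨lv, hl1, hl2⟩ := exists_lev hX (fun y : S => f y)
    (fun x => Set.finite_of_encard_le_coe (hfib0 x)) idx hfin
  obtain ⟨R, hR⟩ := offdiag hq₀.mem
  obtain ⟨N₀, hN₀⟩ := h4 (R + 1)
  have far : ∀ c : ℕ → Prop, ∀ x ∈ {y : S | N₀ < idx y ∧ c (idx y)}, ∀ y,
      y ∉ {y : S | N₀ < idx y ∧ c (idx y)} → R < dist x y := by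
    intro c x hx y hy
    have hne : idx x ≠ idx y := fun e => hy (show N₀ < idx y ∧ c (idx y) from e ▸ hx)
    have h5 : N₀ < idx x := hx.1
    have := hN₀ _ _ hne (by omega) _ (hidx x) _ (hidx y)
    rw [Subtype.dist_eq]
    linarith
  obtain ⟨q, hq, hsub, hpar⟩ := hq₀.split {y | idx y ≤ N₀}
    {y | N₀ < idx y ∧ lv (idx y) % 2 = 0} {y | N₀ < idx y ∧ lv (idx y) % 2 = 1} (hfin N₀)
    (by
      apply clm_ext
      intro z
      show chi _ (delta z) + chi _ (delta z) + chi _ (delta z) = delta z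
      have m0 := chi_mem (A := {y | idx y ≤ N₀}) (z := z)
      have n0 := chi_notMem (A := {y | idx y ≤ N₀}) (z := z)
      have m1 := chi_mem (A := {y | N₀ < idx y ∧ lv (idx y) % 2 = 0}) (z := z)
      have n1 := chi_notMem (A := {y | N₀ < idx y ∧ lv (idx y) % 2 = 0}) (z := z)
      have m2 := chi_mem (A := {y | N₀ < idx y ∧ lv (idx y) % 2 = 1}) (z := z)
      have n2 := chi_notMem (A := {y | N₀ < idx y ∧ lv (idx y) % 2 = 1}) (z := z)
      simp only [Set.mem_ofPred_eq] at m0 n0 m1 n1 m2 n2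
      by_cases c1 : idx z ≤ N₀
      · rw [m0 c1, n1 (by omega), n2 (by omega), add_zero, add_zero]
      · by_cases c2 : lv (idx z) % 2 = 0
        · rw [n0 c1, m1 (by omega), n2 (by omega), add_zero, zero_add]
        · rw [n0 c1, n1 (by omega), m2 (by omega), add_zero, zero_add])
    (hR _ (far fun n => lv n % 2 = 0)) (hR _ (far fun n => lv n % 2 = 1))
  have hinj : Set.InjOn (fun y : S => f y) (supp q) := hinj₀.mono hsub
  have hpar' : ∀ a ∈ supp q, ∀ b ∈ supp q, lv (idx a) % 2 = lv (idx b) % 2 := by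
    intro a ha b hb
    rcases hpar with h5 | h5
    · rw [(h5 ha).2, (h5 hb).2]
    · rw [(h5 ha).2, (h5 hb).2]
  let Q : ℕ → Set X := fun k => (fun y : S => f y) '' (supp q ∩ {y | lv (idx y) = k})
  have hU : ∀ x, x ∈ ⋃ k, Q k ↔ ∃ y ∈ supp q, f y = x := by
    intro x
    rw [Set.mem_iUnion]
    exact ⟨fun ⟨k, y, hy, e⟩ => ⟨y, hy.1, e⟩, fun ⟨y, hy, e⟩ => ⟨_, y, ⟨hy, rfl⟩, e⟩⟩
  have hsp : IsSparse (⋃ k, Q k) := by
    refine isSparse_of_blocks Q (fun k => ((hl1 k).inter_of_right _).image _) ?_ ?_ ?_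
    · intro n m hnm
      rw [Set.disjoint_left]
      rintro _ ⟨a, ha, rfl⟩ ⟨b, hb, hab⟩
      have := hinj hb.1 ha.1 hab
      subst this
      exact hnm (ha.2.symm.trans hb.2)
    · intro hfin'
      refine hq.noncpt (compact_of_finite_support q ?_)
      refine Set.Finite.of_finite_image (hfin'.subset ?_) hinj
      rintro _ ⟨y, hy, rfl⟩
      exact (hU _).2 ⟨y, hy, rfl⟩
    · intro r
      obtain ⟨M, hM⟩ := exists_nat_ge r
      refine ⟨2 * (M + 2), fun n m hnm hle => ?_⟩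
      rintro _ ⟨a, ha, rfl⟩ _ ⟨b, hb, rfl⟩
      have e1 : lv (idx a) = n := ha.2
      have e2 : lv (idx b) = m := hb.2
      have e3 := hpar' a ha.1 b hb.1
      rcases lt_or_gt_of_ne hnm with c | c
      · have h5 := hl2 a b (by omega)
        have h6 : ((M + 2 : ℕ) : ℝ) ≤ lv (idx b) := by exact_mod_cast (by omega)
        push_cast at h6
        linarith
      · have h5 := hl2 b a (by omega)
        have h6 : ((M + 2 : ℕ) : ℝ) ≤ lv (idx a) := by exact_mod_cast (by omega)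
        push_cast at h6
        rw [dist_comm]
        linarith
  have hch : ∀ x : (⋃ k, Q k : Set X), ∃ y : S, y ∈ supp q ∧ f y = x := fun x => (hU _).1 x.2
  choose g hg1 hg2 using hch
  have hginj : Function.Injective g := fun a b hab => Subtype.ext (by rw [← hg2, ← hg2, hab])
  have hbad' := hq.transport hginj (fun y hy =>
      ⟨⟨f y, (hU _).2 ⟨y, hy, rfl⟩⟩, hinj (hg1 _) hy (hg2 _)⟩) (fun R => by
    obtain ⟨R', hR'⟩ := hu R
    refine ⟨R', fun x y hxy => ?_⟩
    rw [Subtype.dist_eq, ← hg2, ← hg2]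
    exact hR' _ _ hxy)
  exact hbad'.noncpt (h _ hsp _ hbad'.mem (ghost_of_cols hbad'.proj hbad'.cols) hbad'.proj)

end Pool.Agent.P.MP_7884fa_an
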