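import Pool.Agent.P.MP_7884fa_an.Basic
import Pool.Agent.Lib.Selector.Det

/-! Shrinking the support of a non-compact ghost projection. -/

namespace Pool.Agent.P.MP_7884fa_an

open scoped InnerProductSpace NNReal
open InnerProductSpace ContinuousLinearMap

variable {X : Type*}

/-- A non-compact projection in the Roe algebra whose columns tend to zero. -/
structure Bad [MetricSpace X] (p : L2 X →L[ℂ] L2 X) : Prop where
  mem : p ∈ roeAlg X
  proj : IsStarProjection p
  noncpt : ¬ IsCompactOperator p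
  cols : ∀ ε : ℝ, 0 < ε → {y | ε ≤ ‖p (delta y)‖}.Finite

theorem norm_apply_le_of_proj {p : L2 X →L[ℂ] L2 X} (hp : IsStarProjection p) (ξ : L2 X) :
    ‖p ξ‖ ≤ ‖ξ‖ := by
  calc ‖p ξ‖ ≤ ‖p‖ * ‖ξ‖ := le_opNorm _ _
    _ ≤ 1 * ‖ξ‖ := by gcongr; exact hp.norm_le
    _ = ‖ξ‖ := one_mul _

theorem inner_proj {p : L2 X →L[ℂ] L2 X} (hp : IsStarProjection p) (ξ η : L2 X) :
    ⟪p ξ, η⟫_ℂ = ⟪ξ, p η⟫_ℂ := by
  have : adjoint p = p := hp.isSelfAdjoint
  conv_lhs => rw [← this]
  rw [adjoint_inner_left]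

theorem proj_proj {p : L2 X →L[ℂ] L2 X} (hp : IsStarProjection p) (ξ : L2 X) :
    p (p ξ) = p ξ := congrArg (fun T : L2 X →L[ℂ] L2 X => T ξ) hp.isIdempotentElem

theorem cols_of_ghost {p : L2 X →L[ℂ] L2 X} (hp : IsStarProjection p) (hg : IsGhost p)
    (ε : ℝ) (hε : 0 < ε) : {y | ε ≤ ‖p (delta y)‖}.Finite := by
  obtain ⟨F, hF⟩ := hg (ε ^ 2) (by positivity)
  refine F.finite_toSet.subset fun y hy => ?_
  by_contra hyF
  have h1 := hF y y (fun h => hyF h.1)
  have h2 : entry p y y = ⟪p (delta y), p (delta y)⟫_ℂ := by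
    rw [inner_proj hp, proj_proj hp]; rfl
  rw [h2, inner_self_eq_norm_sq_to_K] at h1
  simp only [norm_pow, RCLike.norm_ofReal, abs_norm] at h1
  have h3 : ε ≤ ‖p (delta y)‖ := hy
  nlinarith

theorem ghost_of_cols {p : L2 X →L[ℂ] L2 X} (hp : IsStarProjection p)
    (h : ∀ ε : ℝ, 0 < ε → {y | ε ≤ ‖p (delta y)‖}.Finite) : IsGhost p := by
  intro ε hε
  refine ⟨(h ε hε).toFinset, fun x y hxy => ?_⟩
  simp only [Set.Finite.mem_toFinset, Set.mem_ofPred_eq, not_and_or, not_le] at hxy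
  rcases hxy with hx | hy
  · rw [entry, ← inner_proj hp]
    calc _ ≤ ‖p (delta x)‖ * ‖(delta y : L2 X)‖ := norm_inner_le_norm _ _
      _ < ε := by rwa [norm_delta, mul_one]
  · rw [entry]
    calc _ ≤ ‖(delta x : L2 X)‖ * ‖p (delta y)‖ := norm_inner_le_norm _ _
      _ < ε := by rwa [norm_delta, one_mul]

theorem Bad.kill_one [MetricSpace X] {p : L2 X →L[ℂ] L2 X} (hp : Bad p) (y : X) :
    ∃ q, Bad q ∧ q (delta y) = 0 ∧ ∀ z, ‖q (delta z)‖ ≤ ‖p (delta z)‖ := by
  by_cases h0 : p (delta y) = 0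
  · exact ⟨p, hp, h0, fun _ => le_rfl⟩
  set ξ : L2 X := ((‖p (delta y)‖⁻¹ : ℝ) : ℂ) • p (delta y) with hξ
  have hn : ‖p (delta y)‖ ≠ 0 := norm_ne_zero_iff.mpr h0
  have hξ1 : ‖ξ‖ = 1 := by
    rw [hξ, norm_smul]; simp [hn]
  have hpξ : p ξ = ξ := by rw [hξ, map_smul, proj_proj hp.proj]
  set r := rankOne ℂ ξ ξ with hr
  have hrp : IsStarProjection r := isStarProjection_rankOne_self hξ1
  have h1 : p * r = r := by
    show p ∘L r = r
    rw [hr, comp_rankOne, hpξ]
  have h2 : r * p = r := by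
    have := congrArg star h1
    rwa [star_mul, hrp.isSelfAdjoint.star_eq, hp.proj.isSelfAdjoint.star_eq] at this
  have hq : IsStarProjection (p - r) := hrp.sub_of_mul_eq_left hp.proj h2
  have h3 : ∀ η, (p - r) η = (p - r) (p η) := by
    intro η
    have : (p - r) * p = p - r := by rw [sub_mul, h2, hp.proj.isIdempotentElem]
    exact (congrArg (fun T : L2 X →L[ℂ] L2 X => T η) this).symm
  have h4 : ∀ z, ‖(p - r) (delta z)‖ ≤ ‖p (delta z)‖ := fun z => by
    rw [h3]; exact norm_apply_le_of_proj hq _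
  refine ⟨p - r, ⟨Subalgebra.sub_mem _ hp.mem (rankOne_mem ξ), hq, ?_, ?_⟩, ?_, h4⟩
  · intro hc
    apply hp.noncpt
    have := hc.add (compact_rankOne ξ ξ)
    have e : (⇑(p - r) + ⇑(rankOne ℂ ξ ξ) : L2 X → L2 X) = p := by
      funext η; simp [hr]
    rwa [e] at this
  · intro ε hε
    exact (hp.cols ε hε).subset fun z hz => le_trans hz (h4 z)
  · rw [h3]
    have e : p (delta y) = ((‖p (delta y)‖ : ℝ) : ℂ) • ξ := by
      rw [hξ, smul_smul]
      have : ((‖p (delta y)‖ : ℝ) : ℂ) ≠ 0 := by exact_mod_cast hn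
      simp [this]
    rw [e, map_smul, _root_.sub_apply, hpξ, hr, rankOne_apply, inner_self_eq_norm_sq_to_K, hξ1]
    simp

theorem Bad.kill_finset [MetricSpace X] {p : L2 X →L[ℂ] L2 X} (hp : Bad p) (s : Finset X) :
    ∃ q, Bad q ∧ (∀ y ∈ s, q (delta y) = 0) ∧ ∀ z, ‖q (delta z)‖ ≤ ‖p (delta z)‖ := by
  classical
  induction s using Finset.induction_on with
  | empty => exact ⟨p, hp, by simp, fun _ => le_rfl⟩
  | insert a s _ ih =>
    obtain ⟨q, hq, h1, h2⟩ := ih
    obtain ⟨q', hq', h1', h2'⟩ := hq.kill_one a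
    refine ⟨q', hq', fun y hy => ?_, fun z => (h2' z).trans (h2 z)⟩
    rcases Finset.mem_insert.mp hy with rfl | hy
    · exact h1'
    · have := h2' y
      rw [h1 y hy, norm_zero] at this
      exact norm_le_zero_iff.mp this

theorem Bad.small [MetricSpace X] {p : L2 X →L[ℂ] L2 X} (hp : Bad p) :
    ∃ q, Bad q ∧ (∀ y, ‖q (delta y)‖ ≤ 1 / 10) ∧ ∀ z, p (delta z) = 0 → q (delta z) = 0 := by
  obtain ⟨q, hq, h1, h2⟩ := hp.kill_finset (hp.cols (1 / 10) (by norm_num)).toFinset
  refine ⟨q, hq, fun y => ?_, fun z hz => ?_⟩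
  · by_cases hy : 1 / 10 ≤ ‖p (delta y)‖
    · rw [h1 y (by simpa using hy)]; simp
    · exact (h2 y).trans (le_of_not_ge hy)
  · have := h2 z
    rw [hz, norm_zero] at this
    exact norm_le_zero_iff.mp this

theorem norm_sum_delta {I : Type*} [Fintype I] {g : I → X} (hg : Function.Injective g)
    (c : I → ℂ) : ‖∑ i, c i • (delta (g i) : L2 X)‖ ^ 2 = ∑ i, ‖c i‖ ^ 2 := by
  have := ((orthonormal_delta (X := X)).comp g hg).orthogonalFamily.norm_sum c Finset.univ
  simpa using this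

/-- The infinite selector theorem. -/
theorem selector {p : L2 X →L[ℂ] L2 X} (hp : IsStarProjection p)
    (hε : ∀ y, ‖p (delta y)‖ ≤ 1 / 10) {I : Type*} {pt : I × Bool → X}
    (hpt : Function.Injective pt) :
    ∃ τ : I → Bool, ∃ hg : Function.Injective (fun i => pt (i, τ i)), ‖p * proj hg‖ < 1 := by
  classical
  have fin : ∀ s : Finset I, ∃ τ : s → Bool, ∀ c : s → ℂ,
      ‖∑ i : s, c i • p (delta (pt (i, τ i)))‖ ^ 2 ≤ 9 / 10 * ∑ i, ‖c i‖ ^ 2 := by
    intro s
    refine Pool.Agent.Lib.Selector.selector_finite (ι := s)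
      (fun v => p (delta (pt (v.1, v.2)))) ?_ (fun l => hε _)
    intro x
    have hinj : Function.Injective (fun v : s × Bool => pt (v.1, v.2)) := by
      intro v w h
      have := hpt h
      simp only [Prod.mk.injEq] at this
      exact Prod.ext (Subtype.ext this.1) this.2
    rw [← norm_sum_delta hinj x]
    simp only [← map_smul, ← map_sum]
    gcongr
    exact norm_apply_le_of_proj hp _
  choose g hg using fin
  obtain ⟨τ, hτ⟩ := Finset.rado_selection_subtype (β := fun _ => Bool) g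
  have hinj : Function.Injective (fun i => pt (i, τ i)) := fun i j h => (Prod.mk.inj (hpt h)).1
  refine ⟨τ, hinj, ?_⟩
  have h1 : ∀ (s : Finset I) (c : I → ℂ),
      ‖∑ i ∈ s, c i • p (delta (pt (i, τ i)))‖ ^ 2 ≤ 9 / 10 * ∑ i ∈ s, ‖c i‖ ^ 2 := by
    intro s c
    obtain ⟨t, hst, ht⟩ := hτ s
    have h2 := hg t (fun i => if (i : I) ∈ s then c i else 0)
    have e1 : ∑ i : t, (if (i : I) ∈ s then c i else 0) • p (delta (pt (i, g t i))) =
        ∑ i ∈ s, c i • p (delta (pt (i, τ i))) := by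
      have : ∀ i : t, (if (i : I) ∈ s then c i else 0) • p (delta (pt (i, g t i))) =
          if (i : I) ∈ s then c i • p (delta (pt (i, τ i))) else 0 := by
        intro i
        by_cases hi : (i : I) ∈ s
        · simp only [hi, if_true]
          rw [ht ⟨i, hi⟩]; rfl
        · simp [hi]
      simp only [this]
      rw [Finset.sum_coe_sort t (fun i => if i ∈ s then c i • p (delta (pt (i, τ i))) else 0),
        ← Finset.sum_filter, Finset.filter_mem_eq_inter, Finset.inter_eq_right.mpr hst]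
    have e2 : ∑ i : t, ‖(if (i : I) ∈ s then c i else 0)‖ ^ 2 = ∑ i ∈ s, ‖c i‖ ^ 2 := by
      have : ∀ i : t, ‖(if (i : I) ∈ s then c i else 0)‖ ^ 2 =
          if (i : I) ∈ s then ‖c i‖ ^ 2 else 0 := by
        intro i; split_ifs <;> simp
      simp only [this]
      rw [Finset.sum_coe_sort t (fun i => if i ∈ s then ‖c i‖ ^ 2 else 0),
        ← Finset.sum_filter, Finset.filter_mem_eq_inter, Finset.inter_eq_right.mpr hst]
    rwa [e1, e2] at h2
  have h3 : ∀ η : L2 I, ‖p (push hinj η)‖ ^ 2 ≤ 9 / 10 * ‖η‖ ^ 2 := by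
    intro η
    have t1 := (((hasSum_delta η).mapL (push hinj)).mapL p)
    simp only [map_smul, push_delta] at t1
    have t2 : Filter.Tendsto (fun s : Finset I => ‖∑ i ∈ s, η i • p (delta (pt (i, τ i)))‖ ^ 2)
        Filter.atTop (nhds (‖p (push hinj η)‖ ^ 2)) := (Filter.Tendsto.norm t1).pow 2
    refine le_of_tendsto' t2 fun s => (h1 s η).trans ?_
    gcongr
    have := lp.sum_rpow_le_norm_rpow (p := 2) (by norm_num) η s
    simpa using this
  refine lt_of_le_of_lt (opNorm_le_bound _ (M := 19 / 20) (by norm_num) fun ξ => ?_) (by norm_num)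
  have h4 := h3 (pull hinj ξ)
  have h5 := norm_pull_apply_le hinj ξ
  have h6 : (p * proj hinj) ξ = p (push hinj (pull hinj ξ)) := rfl
  rw [h6]
  have h7 : ‖pull hinj ξ‖ ^ 2 ≤ ‖ξ‖ ^ 2 := by gcongr
  refine (sq_le_sq₀ (norm_nonneg _) (by positivity)).mp ?_
  nlinarith [sq_nonneg ‖ξ‖]

theorem compress_alg {R : Type*} [Ring R] {p e W : R} (hp : p * p = p) (he : e * e = e)
    (h1 : W * (1 - p * e * p) = 1) (h2 : (1 - p * e * p) * W = 1) :
    p * W = W * p ∧
    ((1 - e) * (p * W * p) * (1 - e)) * ((1 - e) * (p * W * p) * (1 - e)) =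
      (1 - e) * (p * W * p) * (1 - e) ∧
    p * (1 - e) * ((1 - e) * (p * W * p) * (1 - e)) * ((1 - e) * p * W) = p := by
  set c := p * e * p with hc
  have a1 : p * c = c := by rw [hc, ← mul_assoc, ← mul_assoc, hp]
  have a2 : c * p = c := by rw [hc, mul_assoc, hp]
  have a3 : p * (1 - c) = (1 - c) * p := by rw [mul_sub, sub_mul, a1, a2, mul_one, one_mul]
  have a4 : p * W = W * p := by
    calc p * W = W * (1 - c) * p * W := by rw [h1, one_mul]
      _ = W * (p * (1 - c)) * W := by rw [a3, mul_assoc W]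
      _ = W * p * ((1 - c) * W) := by noncomm_ring
      _ = W * p := by rw [h2, mul_one]
  have a5 : (1 - e) * (1 - e) = 1 - e := by
    rw [mul_sub, sub_mul, sub_mul, he]; noncomm_ring
  have a6 : p * (1 - e) * p = p * (1 - c) := by
    rw [mul_sub, sub_mul, mul_one, hp, mul_sub, mul_one, a1]
  refine ⟨a4, ?_, ?_⟩
  · calc _ = (1 - e) * p * W * (p * ((1 - e) * (1 - e)) * p) * W * p * (1 - e) := by noncomm_ring
      _ = (1 - e) * p * W * p * ((1 - c) * W) * p * (1 - e) := by rw [a5, a6]; noncomm_ring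
      _ = (1 - e) * p * W * (p * p) * (1 - e) := by rw [h2]; noncomm_ring
      _ = _ := by rw [hp]; noncomm_ring
  · calc _ = (p * ((1 - e) * (1 - e)) * p) * W * (p * ((1 - e) * (1 - e)) * p) * W := by
          noncomm_ring
      _ = p * ((1 - c) * W) * p * ((1 - c) * W) := by rw [a5, a6]; noncomm_ring
      _ = p := by rw [h2, mul_one, mul_one, hp]

theorem Bad.compress [MetricSpace X] {p : L2 X →L[ℂ] L2 X} (hp : Bad p) {I : Type*} {g : I → X}
    (hg : Function.Injective g) (hn : ‖p * Pool.Agent.P.MP_7884fa_an.proj hg‖ < 1) :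
    ∃ q, Bad q ∧ (∀ i, q (delta (g i)) = 0) ∧ ∀ z, p (delta z) = 0 → q (delta z) = 0 := by
  set e := Pool.Agent.P.MP_7884fa_an.proj hg with he
  have hes : IsStarProjection e := isStarProjection_proj hg
  have hc : ‖p * e * p‖ < 1 := by
    calc ‖p * e * p‖ ≤ ‖p * e‖ * ‖p‖ := norm_mul_le _ _
      _ ≤ ‖p * e‖ * 1 := by gcongr; exact hp.proj.norm_le
      _ < 1 := by rwa [mul_one]
  set W := ∑' k : ℕ, (p * e * p) ^ k with hW
  have h1 : W * (1 - p * e * p) = 1 := geom_series_mul_neg _ hc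
  have h2 : (1 - p * e * p) * W = 1 := mul_neg_geom_series _ hc
  obtain ⟨-, a2, a3⟩ := compress_alg hp.proj.isIdempotentElem hes.isIdempotentElem h1 h2
  have hem : e ∈ roeAlg X := proj_mem hg
  have hWm : W ∈ roeAlg X :=
    tsum_pow_mem (Subalgebra.mul_mem _ (Subalgebra.mul_mem _ hp.mem hem) hp.mem) hc
  have sp := hp.proj.isSelfAdjoint.star_eq
  have se := hes.isSelfAdjoint.star_eq
  have sW : star W = W := by
    have h3 := congrArg star h2
    simp only [star_mul, star_sub, star_one, sp, se] at h3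
    calc star W = star W * ((1 - p * e * p) * W) := by rw [h2, mul_one]
      _ = star W * (1 - p * (e * p)) * W := by noncomm_ring
      _ = W := by rw [h3, one_mul]
  set q := (1 - e) * (p * W * p) * (1 - e) with hq
  have hcol : ∀ z, ‖q (delta z)‖ ≤ ‖(1 - e) * p * W‖ * ‖p (delta z)‖ := by
    intro z
    have e1 : q (delta z) = ((1 - e) * p * W) (p ((1 - e) (delta z))) := rfl
    rw [e1]
    refine (le_opNorm _ _).trans ?_
    gcongr
    by_cases hz : z ∈ Set.range g
    · obtain ⟨i, rfl⟩ := hz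
      simp [he, proj_delta_mem]
    · simp [he, proj_delta_notMem hg hz]
  refine ⟨q, ⟨?_, ⟨a2, ?_⟩, ?_, ?_⟩, ?_, ?_⟩
  · have : 1 - e ∈ roeAlg X := Subalgebra.sub_mem _ (Subalgebra.one_mem _) hem
    exact Subalgebra.mul_mem _ (Subalgebra.mul_mem _ this
      (Subalgebra.mul_mem _ (Subalgebra.mul_mem _ hp.mem hWm) hp.mem)) this
  · show star q = q
    simp only [hq, star_mul, star_sub, star_one, sp, se, sW]
    noncomm_ring
  · intro hcq
    apply hp.noncpt
    have := (hcq.comp_clm ((1 - e) * p * W)).clm_comp (p * (1 - e))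
    rw [← a3]
    exact this
  · intro ε hε
    set C := ‖(1 - e) * p * W‖ + 1 with hC
    have hC0 : 0 < C := by positivity
    refine (hp.cols (ε / C) (div_pos hε hC0)).subset fun z hz => ?_
    have h4 : ε ≤ ‖q (delta z)‖ := hz
    have h5 := hcol z
    show ε / C ≤ ‖p (delta z)‖
    rw [div_le_iff₀ hC0]
    nlinarith [norm_nonneg (p (delta z))]
  · intro i
    have e1 : q (delta (g i)) = ((1 - e) * (p * W * p)) ((1 - e) (delta (g i))) := rfl
    rw [e1]
    simp [he, proj_delta_mem]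
  · intro z hz
    have := hcol z
    rw [hz, norm_zero, mul_zero] at this
    exact norm_le_zero_iff.mp this

/-- The support of an operator. -/
def supp (p : L2 X →L[ℂ] L2 X) : Set X := {y | p (delta y) ≠ 0}

theorem Bad.exists_injOn [MetricSpace X] {Z : Type*} (f : X → Z) (N : ℕ)
    {p : L2 X →L[ℂ] L2 X} (hp : Bad p)
    (hN : ∀ x, (supp p ∩ f ⁻¹' {x}).encard ≤ (N + 1 : ℕ)) :
    ∃ q, Bad q ∧ Set.InjOn f (supp q) := by
  induction N generalizing p with
  | zero =>
    refine ⟨p, hp, fun a ha b hb hab => ?_⟩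
    have := hN (f a)
    simp only [zero_add, Nat.cast_one, Set.encard_le_one_iff] at this
    exact this a b ⟨ha, rfl⟩ ⟨hb, hab.symm⟩
  | succ N ih =>
    obtain ⟨p', hp', hs, hsupp⟩ := hp.small
    have hsub : supp p' ⊆ supp p := fun z hz h0 => hz (hsupp z h0)
    let I := {x : Z // (supp p' ∩ f ⁻¹' {x}).Nontrivial}
    have hch : ∀ i : I, ∃ a b : X, a ∈ supp p' ∩ f ⁻¹' {i.1} ∧ b ∈ supp p' ∩ f ⁻¹' {i.1} ∧ a ≠ b :=
      fun i => by
        obtain ⟨a, ha, b, hb, hab⟩ := i.2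
        exact ⟨a, b, ha, hb, hab⟩
    choose a b ha hb hab using hch
    let pt : I × Bool → X := fun v => if v.2 then a v.1 else b v.1
    have hptm : ∀ v, pt v ∈ supp p' ∩ f ⁻¹' {v.1.1} := by
      rintro ⟨i, c⟩; cases c
      · exact hb i
      · exact ha i
    have hpt : Function.Injective pt := by
      rintro ⟨i, c⟩ ⟨j, d⟩ h
      have hij : i = j := by
        have h1 : f (pt (i, c)) = i.1 := (hptm (i, c)).2
        have h2 : f (pt (j, d)) = j.1 := (hptm (j, d)).2
        exact Subtype.ext (by rw [← h1, ← h2, h])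
      subst hij
      cases c <;> cases d
      · rfl
      · exact absurd h.symm (hab i)
      · exact absurd h (hab i)
      · rfl
    obtain ⟨τ, hg, hn⟩ := selector hp'.proj hs hpt
    obtain ⟨q, hq, h1, h2⟩ := hp'.compress hg hn
    have hsub' : supp q ⊆ supp p' := fun z hz h0 => hz (h2 z h0)
    refine ih hq fun x => ?_
    by_cases hx : (supp p' ∩ f ⁻¹' {x}).Nontrivial
    · let i : I := ⟨x, hx⟩
      have hmem : pt (i, τ i) ∈ supp p ∩ f ⁻¹' {x} := ⟨hsub (hptm _).1, (hptm (i, τ i)).2⟩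
      have h3 : supp q ∩ f ⁻¹' {x} ⊆ (supp p ∩ f ⁻¹' {x}) \ {pt (i, τ i)} := by
        rintro z ⟨hz, hz'⟩
        refine ⟨⟨hsub (hsub' hz), hz'⟩, ?_⟩
        rintro rfl
        exact hz (h1 i)
      refine (Set.encard_le_encard h3).trans ?_
      have h4 := Set.encard_sdiff_singleton_add_one hmem
      have h5 := hN x
      rw [← h4] at h5
      have : ((N + 1 + 1 : ℕ) : ℕ∞) = ((N + 1 : ℕ) : ℕ∞) + 1 := by push_cast; rfl
      rw [this] at h5
      exact (ENat.add_le_add_iff_right ENat.one_ne_top).mp h5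
    · have h3 : (supp q ∩ f ⁻¹' {x}).Subsingleton :=
        (Set.not_nontrivial_iff.mp hx).anti (Set.inter_subset_inter_left _ hsub')
      refine (Set.encard_le_one_iff_subsingleton.mpr h3).trans ?_
      exact_mod_cast Nat.le_add_left 1 N

end Pool.Agent.P.MP_7884fa_an
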