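import Pool.Agent.P.MP_7884fa_an.Main

namespace Pool.Agent.P.MP_7884fa_an.VariantQ1Embedding

open Pool.Agent.P.MP_7884fa_an

theorem result {X Y : Type*} [MetricSpace X] [MetricSpace Y] (_hX : ULF X) (hY : ULF Y)
    (f : Y → X) (hf : IsCoarseEmbedding f) (h : OnlyCompactGhostProj X) :
    OnlyCompactGhostProj Y :=
  main hY f hf h

end Pool.Agent.P.MP_7884fa_an.VariantQ1Embedding
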