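import Pool.Agent.P.MP_7884fa_an.Main

namespace Pool.Agent.P.MP_7884fa_an.VariantQ2Equivalence

open Pool.Agent.P.MP_7884fa_an

theorem result {X Y : Type*} [MetricSpace X] [MetricSpace Y] (hX : ULF X) (hY : ULF Y)
    (f : Y → X) (hf : IsCoarseEmbedding f) (hC : ∃ C : ℝ, ∀ x : X, ∃ y : Y, dist x (f y) ≤ C) :
    OnlyCompactGhostProj X ↔ OnlyCompactGhostProj Y :=
  main_equiv hX hY f hf hC

end Pool.Agent.P.MP_7884fa_an.VariantQ2Equivalence
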